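import Mathlib

/-!
# Closed braids, PL isotopy, finite type invariants and lifted colourings

Braid words are lists of letters `(i, ε)`: the strands in the positions `i` and `i + 1` (positions
are counted from `0`) cross, positively if `ε = true`, negatively if `ε = false`.
-/

namespace H23.FT

/-- A letter of a braid word: the position of the crossing and its sign. -/
abbrev Letter := ℕ × Bool

/-- The permutation of a braid word: the strand which starts in the position `j` ends in the
position `perm w j`. -/
def perm : List Letter → Equiv.Perm ℕ
  | [] => 1
  | l :: w => perm w * Equiv.swap l.1 (l.1 + 1)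

/-- Shift of a braid word by `n` positions. -/
def shift (n : ℕ) (w : List Letter) : List Letter := w.map fun l => (n + l.1, l.2)

variable {k : ℕ} {G : Type*} [Group G]

/-- The strand `t` passes under the strand `s` at a positive crossing: `t` is multiplied on the
left by the meridian `s a s⁻¹` of `s`, and, if both strands belong to the same component, on the
right by `a⁻¹`. -/
def op (a : Fin k → G) (s t : Fin k × G) : Fin k × G :=
  (t.1, s.2 * a s.1 * s.2⁻¹ * t.2 * if s.1 = t.1 then (a s.1)⁻¹ else 1)

/-- The same for a negative crossing. -/
def opInv (a : Fin k → G) (s t : Fin k × G) : Fin k × G :=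
  (t.1, s.2 * (a s.1)⁻¹ * s.2⁻¹ * t.2 * if s.1 = t.1 then a s.1 else 1)

/-- Effect of a crossing on the strands (component, element of the group). -/
def cross (a : Fin k → G) (l : Letter) (s : ℕ → Fin k × G) : ℕ → Fin k × G := fun j =>
  if j = l.1 then (if l.2 then op a (s l.1) (s (l.1 + 1)) else s (l.1 + 1))
  else if j = l.1 + 1 then (if l.2 then s l.1 else opInv a (s (l.1 + 1)) (s l.1))
  else s j

/-- Effect of a braid word. -/
def act (a : Fin k → G) : List Letter → (ℕ → Fin k × G) → (ℕ → Fin k × G)
  | [], s => s
  | l :: w, s => act a w (cross a l s)

/-- A link with `k` ordered oriented components, as the closure of a braid word `word` on `n`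
strands; `comp j` (for `j < n`) is the component of the strand in the position `j`. -/
structure Link (k : ℕ) where
  n : ℕ
  word : List Letter
  lt : ∀ l ∈ word, l.1 + 1 < n
  comp : ℕ → Fin k
  closed : ∀ j < n, comp (perm word j) = comp j
  conn : ∀ i < n, ∀ j < n, comp i = comp j → ∃ m : ℕ, (perm word ^ m) i = j
  surj : ∀ c, ∃ j, j < n ∧ comp j = c

/-- The word of `L` with the crossings in `E` changed. -/
def flipWord (w : List Letter) (E : Finset (Fin w.length)) : List Letter :=
  List.ofFn fun t : Fin w.length => ((w.get t).1, xor (w.get t).2 (decide (t ∈ E)))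

/-- Elementary changes of a braid word which do not change the braid. -/
inductive BraidStep : List Letter → List Letter → Prop
  | cancel (w₁ w₂ : List Letter) (i : ℕ) (ε : Bool) :
      BraidStep (w₁ ++ (i, ε) :: (i, !ε) :: w₂) (w₁ ++ w₂)
  | far (w₁ w₂ : List Letter) (i j : ℕ) (ε δ : Bool) (h : i + 1 < j) :
      BraidStep (w₁ ++ (i, ε) :: (j, δ) :: w₂) (w₁ ++ (j, δ) :: (i, ε) :: w₂)
  | braid (w₁ w₂ : List Letter) (i : ℕ) :
      BraidStep (w₁ ++ (i, true) :: (i + 1, true) :: (i, true) :: w₂)
        (w₁ ++ (i + 1, true) :: (i, true) :: (i + 1, true) :: w₂)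

/-- Elementary moves of links: braid relations, conjugation by a letter, and insertion of a local
knot (the closure of a braid word `κ` on `m` strands) on the last strand; with `m = 1` and `κ`
empty this is the stabilisation of Markov's theorem. The equivalence relation generated by these
moves is PL isotopy. -/
inductive Step : Link k → Link k → Prop
  | braid (L L' : Link k) (hn : L'.n = L.n) (hc : ∀ j < L.n, L'.comp j = L.comp j)
      (hw : BraidStep L.word L'.word) : Step L L'
  | conj (L L' : Link k) (hn : L'.n = L.n) (l : Letter) (w : List Letter)
      (hw : L.word = l :: w) (hw' : L'.word = w ++ [l])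
      (hc : ∀ j < L.n, L'.comp j = L.comp (Equiv.swap l.1 (l.1 + 1) j)) : Step L L'
  | localKnot (L L' : Link k) (m : ℕ) (κ : List Letter) (ε : Bool) (hn0 : 0 < L.n) (hm : 0 < m)
      (hκ : ∀ l ∈ κ, l.1 + 1 < m) (hknot : ∀ j < m, ∃ r : ℕ, (perm κ ^ r) 0 = j)
      (hn : L'.n = L.n + m) (hw : L'.word = L.word ++ (L.n - 1, ε) :: shift L.n κ)
      (hc : ∀ j < L.n, L'.comp j = L.comp j)
      (hc' : ∀ j, L.n ≤ j → j < L.n + m → L'.comp j = L.comp (L.n - 1)) : Step L L'

/-- The invariant `v` is well-defined up to PL isotopy. -/
def PLInvariant {A : Type*} (v : Link k → A) : Prop := ∀ L L', Step L L' → v L = v L'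

theorem perm_nil : perm [] = 1 := rfl

theorem perm_cons (l : Letter) (w : List Letter) :
    perm (l :: w) = perm w * Equiv.swap l.1 (l.1 + 1) := rfl

theorem perm_append (w w' : List Letter) : perm (w ++ w') = perm w' * perm w := by
  induction w with
  | nil => simp [perm_nil]
  | cons l w ih => rw [List.cons_append, perm_cons, perm_cons, ih, mul_assoc]

theorem perm_eq_of_map (w w' : List Letter) (h : w.map Prod.fst = w'.map Prod.fst) :
    perm w = perm w' := by
  induction w generalizing w' with
  | nil =>
    cases w' with
    | nil => rfl
    | cons l w' => simp at h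
  | cons l w ih =>
    cases w' with
    | nil => simp at h
    | cons l' w' =>
      rw [List.map_cons, List.map_cons, List.cons.injEq] at h
      rw [perm_cons, perm_cons, ih w' h.2, h.1]

theorem map_fst_flipWord (w : List Letter) (E : Finset (Fin w.length)) :
    (flipWord w E).map Prod.fst = w.map Prod.fst := by
  unfold flipWord
  rw [List.map_ofFn]
  conv_rhs => rw [← List.ofFn_get w, List.map_ofFn]
  rfl

theorem perm_flipWord (w : List Letter) (E : Finset (Fin w.length)) :
    perm (flipWord w E) = perm w :=
  perm_eq_of_map _ _ (map_fst_flipWord w E)

/-- The link `L` with the crossings in `E` changed. -/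
def Link.flip (L : Link k) (E : Finset (Fin L.word.length)) : Link k where
  n := L.n
  word := flipWord L.word E
  lt := by
    intro l hl
    have h1 : l.1 ∈ (flipWord L.word E).map Prod.fst := List.mem_map_of_mem hl
    rw [map_fst_flipWord] at h1
    obtain ⟨l', hl', h2⟩ := List.mem_map.1 h1
    rw [← h2]
    exact L.lt l' hl'
  comp := L.comp
  closed := by rw [perm_flipWord]; exact L.closed
  conn := by rw [perm_flipWord]; exact L.conn
  surj := L.surj

/-- `v` has type at most `N`: it vanishes on every singular link with more than `N` double points.
A singular link is given by a link diagram `L` and a set `S` of crossings of `L` (they are replaced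
by double points); the value of `v` on it is, up to sign, the alternating sum over the links
obtained by changing the crossings in the subsets `E` of `S`. -/
def TypeLE {A : Type*} [AddCommGroup A] (N : ℕ) (v : Link k → A) : Prop :=
  ∀ (L : Link k) (S : Finset (Fin L.word.length)), N < S.card →
    ∑ E ∈ S.powerset, (-1 : ℤ) ^ E.card • v (L.flip E) = 0

/-- `v` is of finite type. -/
def FiniteType {A : Type*} [AddCommGroup A] (v : Link k → A) : Prop := ∃ N, TypeLE N v

/-- The strands of `L` with the elements `u` of `G` on them. -/
def Link.state (L : Link k) (u : Fin L.n → G) : ℕ → Fin k × G := fun j =>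
  (L.comp j, if h : j < L.n then u ⟨j, h⟩ else 1)

/-- The base point of the component `c`: its first strand. -/
def Link.base (L : Link k) (c : Fin k) : ℕ := Nat.find (L.surj c)

/-- A lifted colouring of `L`: elements `u j` of `G` on the strands which, transported through the
braid, come back as `u j`, multiplied on the right by `b c` at the base point of the component `c`.
-/
def IsColouring (L : Link k) (a b : Fin k → G) (u : Fin L.n → G) : Prop :=
  ∀ j : Fin L.n, (act a L.word (L.state u) j).2 =
    u j * if (j : ℕ) = L.base (L.comp j) then b (L.comp j) else 1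

/-- The number of lifted colourings of `L`. -/
noncomputable def colourings (L : Link k) (a b : Fin k → G) : ℕ :=
  Nat.card {u : Fin L.n → G // IsColouring L a b u}

end H23.FT
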