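import Pool.Agent.H23.FT.Moves

namespace H23.FT

variable {k : ℕ} {G : Type*} [Group G]

theorem colourings_braid (L L' : Link k) (hn : L'.n = L.n)
    (hc : ∀ j < L.n, L'.comp j = L.comp j) (hw : BraidStep L.word L'.word) (a b : Fin k → G) :
    colourings L a b = colourings L' a b := by
  rw [colourings_eq, colourings_eq, hn]
  have hB : ∀ c, L'.base c = L.base c := base_eq_of L L' (le_of_eq hn.symm) hc
  have : ColSet L.n L'.word L'.comp a (tau L'.comp b L'.base) =
      ColSet L.n L.word L.comp a (tau L.comp b L.base) := by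
    refine ColSet_congr L.n L.word L'.word L.lt L.comp L'.comp a _ _ hc ?_
      (fun s => act_braidStep a hw s)
    intro j hj
    unfold tau
    rw [hc j hj, hB]
  rw [this]

theorem colourings_localKnot [Group.IsNilpotent G] (L L' : Link k) (m : ℕ) (κ : List Letter)
    (ε : Bool) (hn0 : 0 < L.n) (hm : 0 < m) (hκ : ∀ l ∈ κ, l.1 + 1 < m)
    (hknot : ∀ j < m, ∃ r : ℕ, (perm κ ^ r) 0 = j) (hn : L'.n = L.n + m)
    (hw : L'.word = L.word ++ (L.n - 1, ε) :: shift L.n κ)
    (hc : ∀ j < L.n, L'.comp j = L.comp j)
    (hc' : ∀ j, L.n ≤ j → j < L.n + m → L'.comp j = L.comp (L.n - 1)) (a b : Fin k → G) :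
    colourings L a b = colourings L' a b := by
  rw [colourings_eq, colourings_eq, hn]
  set n := L.n with hndef
  set i := L.comp (n - 1) with hi
  have hB : ∀ c, L'.base c = L.base c := base_eq_of L L' (by rw [hn]; omega) hc
  have ht : ∀ j < n, tau L'.comp b L'.base j = tau L.comp b L.base j := by
    intro j hj
    unfold tau
    rw [hc j hj, hB]
  have ht' : ∀ j, n ≤ j → tau L'.comp b L'.base j = 1 := by
    intro j hj
    unfold tau
    rw [if_neg]
    intro h
    rw [hB] at h
    have := base_lt L (L'.comp j)
    omega
  -- colourings of `L'` and their restrictions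
  let A : (ℕ → G) → (ℕ → Fin k × G) := fun u' => act a L.word (fun j => (L'.comp j, u' j))
  let y : (ℕ → G) → G := fun u => (act a L.word (fun j => (L.comp j, u j)) (n - 1)).2
  have hA1 : ∀ u' : ℕ → G, ∀ j < n, A u' j = act a L.word (fun j => (L.comp j, u' j)) j := by
    intro u' j hj
    refine act_congr a L.word _ _ n L.lt ?_ j hj
    intro i hi
    rw [hc i hi]
  have hA2 : ∀ u' : ℕ → G, ∀ j, n ≤ j → A u' j = (L'.comp j, u' j) := fun u' j hj =>
    act_of_ge a L.word _ n L.lt j hj
  have hA3 : ∀ u' : ℕ → G, A u' (n - 1) = (i, y u') := by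
    intro u'
    have h1 : n - 1 < n := by omega
    rw [hA1 u' _ h1]
    refine Prod.ext ?_ rfl
    have e := act_fst a L.word (fun j => (L.comp j, u' j)) ((perm L.word)⁻¹ (n - 1))
    rw [← Equiv.Perm.mul_apply, mul_inv_cancel, Equiv.Perm.one_apply] at e
    rw [e]
    exact perm_inv_comp L _ h1
  let C : (ℕ → G) → (ℕ → Fin k × G) := fun u' => cross a (n - 1, ε) (A u')
  have hn1 : n - 1 + 1 = n := by omega
  have hC1 : ∀ u' : ℕ → G, ∀ j < n - 1, C u' j = A u' j := fun u' j hj =>
    cross_of_ne a _ _ _ (by simp only; omega) (by simp only; omega)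
  have hC2 : ∀ u' : ℕ → G, ∀ j, n < j → C u' j = A u' j := fun u' j hj =>
    cross_of_ne a _ _ _ (by simp only; omega) (by simp only; omega)
  have hAn : ∀ u' : ℕ → G, A u' n = (i, u' n) := by
    intro u'
    rw [hA2 u' n le_rfl, hc' n le_rfl (by omega)]
  -- if the strand `n` carries the right element, the crossing is trivial
  have hC3 : ∀ u' : ℕ → G, u' n = y u' → C u' (n - 1) = (i, y u') ∧ C u' n = (i, y u') := by
    intro u' h
    have e1 := cross_left_true a (n - 1) (A u')
    have e2 := cross_right_true a (n - 1) (A u')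
    have e3 := cross_left_false a (n - 1) (A u')
    have e4 := cross_right_false a (n - 1) (A u')
    rw [hn1, hAn, hA3, h] at e1 e4
    rw [hn1] at e2 e3
    rw [op_self] at e1
    rw [opInv_self] at e4
    cases ε with
    | true => exact ⟨e1, by rw [show C u' n = _ from e2, hA3]⟩
    | false => exact ⟨by rw [show C u' (n - 1) = _ from e3, hAn, h], e4⟩
  -- conversely
  have hC4 : ∀ u' : ℕ → G, (C u' n).2 = u' n → u' n = y u' := by
    intro u' h
    cases ε with
    | true =>
      have e2 := cross_right_true a (n - 1) (A u')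
      rw [hn1] at e2
      have : C u' n = A u' (n - 1) := e2
      rw [this, hA3] at h
      exact h.symm
    | false =>
      have e4 := cross_right_false a (n - 1) (A u')
      rw [hn1] at e4
      have e5 : C u' n = opInv a (A u' n) (A u' (n - 1)) := e4
      have e6 : opInv a (A u' n) (A u' (n - 1)) = A u' n := by
        rw [← e5]
        refine Prod.ext ?_ ?_
        · rw [e5, opInv_fst, hA3, hAn]
        · rw [h, hAn]
      have e7 := op_opInv a (A u' n) (A u' (n - 1))
      rw [e6, op_self, hAn, hA3] at e7
      exact congrArg Prod.snd e7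
  have hCfst : ∀ u' : ℕ → G, ∀ j < m, (C u' (n + j)).1 = i := by
    intro u' j hj
    show (cross a (n - 1, ε) (A u') (n + j)).1 = i
    rw [cross_fst]
    simp only [hn1]
    by_cases h0 : j = 0
    · subst h0
      rw [add_zero, Equiv.swap_apply_right, hA3]
    · rw [Equiv.swap_apply_of_ne_of_ne (by omega) (by omega), hA2 u' _ (by omega)]
      exact hc' _ (by omega) (by omega)
  have hD1 : ∀ u' : ℕ → G, ∀ j < n, act a L'.word (fun j => (L'.comp j, u' j)) j = C u' j := by
    intro u' j hj
    rw [hw, act_append, act_cons, act_shift_of_lt a n κ _ j hj]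
  have hD2 : ∀ u' : ℕ → G, ∀ j, act a L'.word (fun j => (L'.comp j, u' j)) (n + j) =
      act a κ (fun j => C u' (n + j)) j := by
    intro u' j
    rw [hw, act_append, act_cons, act_shift a n κ _ j]
  let cut : (ℕ → G) → (ℕ → G) := fun u' j => if j < n then u' j else 1
  have hycut : ∀ u' : ℕ → G, y (cut u') = y u' := by
    intro u'
    have := act_congr a L.word (fun j => (L.comp j, cut u' j)) (fun j => (L.comp j, u' j)) n L.lt
      (fun j hj => by simp only [cut, if_pos hj]) (n - 1) (by omega)
    exact congrArg Prod.snd this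
  have hactcut : ∀ u' : ℕ → G, ∀ j < n, act a L.word (fun j => (L.comp j, cut u' j)) j =
      A u' j := by
    intro u' j hj
    rw [hA1 u' j hj]
    exact act_congr a L.word _ _ n L.lt (fun j hj => by simp only [cut, if_pos hj]) j hj
  have hmain : ∀ u' : ℕ → G, u' ∈ ColSet (n + m) L'.word L'.comp a (tau L'.comp b L'.base) ↔
      ((∀ j, n + m ≤ j → u' j = 1) ∧ cut u' ∈ ColSet n L.word L.comp a (tau L.comp b L.base) ∧
        ∀ j < m, u' (n + j) = y u') := by
    intro u'
    unfold ColSet
    simp only [Set.mem_ofPred_eq]
    refine and_congr Iff.rfl ?_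
    constructor
    · intro h
      -- the knot part
      have hk : ∀ j < m, j ≠ 0 →
          (act a κ (fun j => (i, (C u' (n + j)).2)) j).2 = (C u' (n + j)).2 := by
        intro j hj hj0
        have h1 := h (n + j) (by omega)
        rw [hD2, ht' _ (by omega), mul_one] at h1
        have e1 : act a κ (fun j => C u' (n + j)) j =
            act a κ (fun j => (i, (C u' (n + j)).2)) j := by
          refine act_congr a κ _ _ m hκ ?_ j hj
          intro j hj
          exact Prod.ext (hCfst u' j hj) rfl
        rw [← e1, h1, hC2 u' _ (by omega), hA2 u' _ (by omega)]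
      have hk' := long_knot a κ m hκ hknot i (fun j => (C u' (n + j)).2) hk
      simp only [add_zero] at hk'
      have hconst : ∀ j < m, act a κ (fun j => C u' (n + j)) j = (i, (C u' n).2) := by
        refine act_const a κ m hκ _ (i, (C u' n).2) ?_
        intro j hj
        exact Prod.ext (hCfst u' j hj) (hk' j hj)
      have hu : ∀ j < m, u' (n + j) = (C u' n).2 := by
        intro j hj
        have h1 := h (n + j) (by omega)
        rw [hD2, ht' _ (by omega), mul_one, hconst j hj] at h1
        exact h1.symm
      have hun := hu 0 hm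
      rw [add_zero] at hun
      have hy := hC4 u' hun.symm
      have hCC := hC3 u' hy
      refine ⟨⟨?_, ?_⟩, ?_⟩
      · intro j hj
        simp only [cut, if_neg (not_lt.2 hj)]
      · intro j hj
        rw [hactcut u' j hj]
        have h1 := h j (by omega)
        rw [hD1 u' j hj, ht j hj] at h1
        simp only [cut, if_pos hj]
        rw [← h1]
        by_cases hj1 : j < n - 1
        · rw [hC1 u' j hj1]
        · have : j = n - 1 := by omega
          rw [this, hCC.1, hA3]
      · intro j hj
        rw [hu j hj, hCC.2]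
    · rintro ⟨⟨_, h2⟩, h3⟩ j hj
      have hun : u' n = y u' := by simpa using h3 0 hm
      have hCC := hC3 u' hun
      by_cases hjn : j < n
      · rw [hD1 u' j hjn, ht j hjn]
        have h1 := h2 j hjn
        rw [hactcut u' j hjn] at h1
        simp only [cut, if_pos hjn] at h1
        rw [← h1]
        by_cases hj1 : j < n - 1
        · rw [hC1 u' j hj1]
        · have : j = n - 1 := by omega
          rw [this, hCC.1, hA3]
      · obtain ⟨j', rfl⟩ := Nat.exists_eq_add_of_le (not_lt.1 hjn)
        have hj' : j' < m := by omega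
        rw [hD2, ht' _ (by omega), mul_one, h3 j' hj']
        have := act_const a κ m hκ (fun j => C u' (n + j)) (i, y u') ?_ j' hj'
        · rw [this]
        · intro j hj
          by_cases h0 : j = 0
          · rw [h0, add_zero, hCC.2]
          · rw [hC2 u' _ (by omega), hA2 u' _ (by omega), hc' _ (by omega) (by omega), h3 j hj]
  let ext : (ℕ → G) → (ℕ → G) := fun u j => if j < n then u j else if j < n + m then y u else 1
  have hycongr : ∀ u v : ℕ → G, (∀ j < n, u j = v j) → y u = y v := by
    intro u v h
    have := act_congr a L.word (fun j => (L.comp j, u j)) (fun j => (L.comp j, v j)) n L.lt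
      (fun j hj => by rw [h j hj]) (n - 1) (by omega)
    exact congrArg Prod.snd this
  have hyext : ∀ u, y (ext u) = y u := fun u => hycongr _ _ (fun j hj => by
    simp only [ext, if_pos hj])
  have hcutext : ∀ u : ℕ → G, (∀ j, n ≤ j → u j = 1) → cut (ext u) = u := by
    intro u hu
    funext j
    by_cases hj : j < n
    · simp only [cut, ext, if_pos hj]
    · simp only [cut, if_neg hj, hu j (not_lt.1 hj)]
  have hext : ∀ u ∈ ColSet n L.word L.comp a (tau L.comp b L.base),
      ext u ∈ ColSet (n + m) L'.word L'.comp a (tau L'.comp b L'.base) := by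
    intro u hu
    refine (hmain _).2 ⟨?_, ?_, ?_⟩
    · intro j hj
      simp only [ext, if_neg (show ¬ j < n by omega), if_neg (show ¬ j < n + m by omega)]
    · rw [hcutext u hu.1]
      exact hu
    · intro j hj
      rw [hyext]
      simp only [ext, if_neg (show ¬ n + j < n by omega), if_pos (show n + j < n + m by omega)]
  have hextcut : ∀ u' ∈ ColSet (n + m) L'.word L'.comp a (tau L'.comp b L'.base),
      ext (cut u') = u' := by
    intro u' hu'
    funext j
    have h := (hmain u').1 hu'
    by_cases hj : j < n
    · simp only [ext, cut, if_pos hj]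
    · by_cases hj2 : j < n + m
      · simp only [ext, if_neg hj, if_pos hj2]
        rw [hycut]
        obtain ⟨j', rfl⟩ := Nat.exists_eq_add_of_le (not_lt.1 hj)
        exact (h.2.2 j' (by omega)).symm
      · simp only [ext, if_neg hj, if_neg hj2]
        exact (h.1 j (not_lt.1 hj2)).symm
  exact Nat.card_congr ⟨fun u => ⟨ext u.1, hext _ u.2⟩,
    fun u' => ⟨cut u'.1, ((hmain u'.1).1 u'.2).2.1⟩,
    fun u => Subtype.ext (hcutext u.1 u.2.1), fun u' => Subtype.ext (hextcut u'.1 u'.2)⟩

/-- The number of lifted colourings by a nilpotent group is a PL isotopy invariant. -/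
theorem colourings_step [Group.IsNilpotent G] {L L' : Link k} (h : Step L L')
    (a b : Fin k → G) (hab : ∀ c, Commute (b c) (a c)) :
    colourings L a b = colourings L' a b := by
  cases h with
  | braid hn hc hw => exact colourings_braid L L' hn hc hw a b
  | conj hn l w hw hw' hc => exact colourings_conj L L' hn l w hw hw' hc a b hab
  | localKnot m κ ε hn0 hm hκ hknot hn hw hc hc' =>
    exact colourings_localKnot L L' m κ ε hn0 hm hκ hknot hn hw hc hc' a b

end H23.FT
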