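import Pool.Agent.H23.FT.Cube
import Pool.Agent.H23.FT.Knot

/-!
# The numbers of colourings by `p`-groups are of finite type modulo powers of `p`
-/

namespace H23.FT

variable {k : ℕ} {G : Type*} [Group G]

/-- A colouring is determined by its values at the base points. -/
theorem uniq [Group.IsNilpotent G] (M : Link k) (a : Fin k → G) (u u' : Fin M.n → G)
    (h1 : ∀ j : Fin M.n, (j : ℕ) = M.base (M.comp j) → u j = u' j)
    (h2 : ∀ j : Fin M.n, (j : ℕ) ≠ M.base (M.comp j) →
      (u j)⁻¹ * (act a M.word (M.state u) j).2 = (u' j)⁻¹ * (act a M.word (M.state u') j).2) :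
    u = u' := by
  have hJ : ∀ j < M.n, ∃ m : ℕ, (fun j => j = M.base (M.comp j)) (((perm M.word)⁻¹ ^ m) j) := by
    intro j hj
    obtain ⟨m, hm⟩ := M.conn (M.base (M.comp j)) (base_lt M _) j hj (comp_base M _)
    refine ⟨m, ?_⟩
    have e : ((perm M.word)⁻¹ ^ m) j = M.base (M.comp j) := by
      rw [← hm, inv_pow, ← Equiv.Perm.mul_apply, inv_mul_cancel, Equiv.Perm.one_apply, hm]
    show ((perm M.word)⁻¹ ^ m) j = M.base (M.comp (((perm M.word)⁻¹ ^ m) j))
    rw [e, comp_base]
  have := key M.word M.n M.lt (fun j => j = M.base (M.comp j)) hJ M.comp a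
    (fun j => if h : j < M.n then u ⟨j, h⟩ else 1) (fun j => if h : j < M.n then u' ⟨j, h⟩ else 1)
    ?_ ?_
  · funext j
    have h := this j j.2
    simp only [dif_pos j.2] at h
    exact h
  · intro j hj hJj
    simp only [dif_pos hj]
    exact h1 ⟨j, hj⟩ hJj
  · intro j hj hJj
    simp only [dif_pos hj]
    exact h2 ⟨j, hj⟩ hJj

section

variable (L : Link k) (a : Fin k → G)

/-- The family of states of a family of functions. -/
def fam (u : Fin L.n → (Finset (Fin L.word.length) → G)) (E : Finset (Fin L.word.length)) :
    ℕ → Fin k × G := L.state fun j => u j E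

/-- Transport of a family of functions. -/
def out (u : Fin L.n → (Finset (Fin L.word.length) → G)) (j : ℕ) :
    Finset (Fin L.word.length) → G :=
  fun E => (act a (flipWord L.word E) (fam L u E) j).2

theorem out_mem (u : Fin L.n → (Finset (Fin L.word.length) → G))
    (hu : ∀ j, u j ∈ P (Fin L.word.length) G 1) (j : ℕ) :
    out L a u j ∈ P (Fin L.word.length) G 1 := by
  have hf : Fam (fam L u) := by
    refine ⟨fun j => ?_, fun E E' j => rfl⟩
    by_cases h : j < L.n
    · have e : (fun E => (fam L u E j).2) = u ⟨j, h⟩ := by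
        funext E
        show (if h : j < L.n then u ⟨j, h⟩ E else 1) = _
        rw [dif_pos h]
      rw [e]
      exact hu _
    · have e : (fun E => (fam L u E j).2) = fun _ => 1 := by
        funext E
        show (if h : j < L.n then u ⟨j, h⟩ E else 1) = _
        rw [dif_neg h]
      rw [e]
      exact one_mem _
  have h := (Fam.run a (List.ofFn fun t : Fin L.word.length =>
    ((L.word.get t).1, (L.word.get t).2, t)) hf).1 j
  simp only [← flipWord_eq] at h
  exact h

/-- For every choice of the values at the base points there is a family which closes up on the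
other strands. -/
theorem exists_family [Finite G] [Group.IsNilpotent G] (g : Fin k → G) :
    ∃ u : Fin L.n → (Finset (Fin L.word.length) → G),
      (∀ j, u j ∈ P (Fin L.word.length) G 1) ∧
      (∀ j : Fin L.n, (j : ℕ) = L.base (L.comp j) → ∀ E, u j E = g (L.comp j)) ∧
      (∀ j : Fin L.n, (j : ℕ) ≠ L.base (L.comp j) → ∀ E, out L a u j E = u j E) := by
  classical
  let X := Fin L.n → P (Fin L.word.length) G 1
  let Φ : X → X := fun u j => if (j : ℕ) = L.base (L.comp j) then u j else
    (u j)⁻¹ * ⟨out L a (fun i => (u i : Finset (Fin L.word.length) → G)) j,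
      out_mem L a _ (fun i => (u i).2) j⟩
  have hinj : Function.Injective Φ := by
    intro u u' h
    have hE : ∀ E, (fun j => (u j : Finset (Fin L.word.length) → G) E) =
        fun j => (u' j : Finset (Fin L.word.length) → G) E := by
      intro E
      refine uniq (L.flip E) a _ _ ?_ ?_
      · intro j hj
        have hj' : (j : ℕ) = L.base (L.comp j) := hj
        have hh := congrFun h j
        simp only [Φ] at hh
        rw [if_pos hj', if_pos hj'] at hh
        show (u j : Finset (Fin L.word.length) → G) E = (u' j : Finset (Fin L.word.length) → G) E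
        rw [hh]
      · intro j hj
        have hj' : (j : ℕ) ≠ L.base (L.comp j) := hj
        have hh := congrFun h j
        simp only [Φ] at hh
        rw [if_neg hj', if_neg hj'] at hh
        have h3 := congrFun (congrArg Subtype.val hh) E
        exact h3
    funext j
    refine Subtype.ext (funext fun E => ?_)
    exact congrFun (hE E) j
  have hsurj : Function.Surjective Φ := Finite.injective_iff_surjective.1 hinj
  obtain ⟨u, hu⟩ := hsurj fun j => if (j : ℕ) = L.base (L.comp j) then
    ⟨fun _ => g (L.comp j), const_mem_P 1 _⟩ else 1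
  refine ⟨fun j => u j, fun j => (u j).2, fun j hj E => ?_, fun j hj E => ?_⟩
  · have hh := congrFun hu j
    simp only [Φ] at hh
    rw [if_pos hj, if_pos hj] at hh
    have h3 := congrFun (congrArg Subtype.val hh) E
    exact h3
  · have hh := congrFun hu j
    simp only [Φ] at hh
    rw [if_neg hj, if_neg hj] at hh
    have h3 := congrFun (congrArg Subtype.val hh) E
    exact (inv_mul_eq_one.1 h3).symm

/-- The colourings of the flipped links. -/
theorem card_flip [Finite G] [Group.IsNilpotent G] (b : Fin k → G)
    (E : Finset (Fin L.word.length))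
    (U : (Fin k → G) → Fin L.n → (Finset (Fin L.word.length) → G))
    (hU1 : ∀ g, ∀ j : Fin L.n, (j : ℕ) = L.base (L.comp j) → ∀ E, U g j E = g (L.comp j))
    (hU2 : ∀ g, ∀ j : Fin L.n, (j : ℕ) ≠ L.base (L.comp j) → ∀ E, out L a (U g) j E = U g j E) :
    colourings (L.flip E) a b =
      Nat.card {g : Fin k → G // ∀ c, out L a (U g) (L.base c) E = g c * b c} := by
  unfold colourings
  have huniq : ∀ u : Fin L.n → G, IsColouring (L.flip E) a b u →
      u = fun j => U (fun c => u ⟨L.base c, base_lt L c⟩) j E := by
    intro u hu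
    refine uniq (L.flip E) a _ _ ?_ ?_
    · intro j hj
      have hj' : (j : ℕ) = L.base (L.comp j) := hj
      show u j = U (fun c => u ⟨L.base c, base_lt L c⟩) j E
      rw [hU1 _ j hj' E]
      congr 1
      exact Fin.ext hj'
    · intro j hj
      have hj' : (j : ℕ) ≠ L.base (L.comp j) := hj
      have h1 := hu j
      have h1' : (act a (flipWord L.word E) (L.state u) j).2 =
        u j * if (j : ℕ) = L.base (L.comp j) then b (L.comp j) else 1 := h1
      rw [if_neg hj', mul_one] at h1'
      have h2 : (act a (flipWord L.word E)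
          (L.state fun j => U (fun c => u ⟨L.base c, base_lt L c⟩) j E) j).2 =
          U (fun c => u ⟨L.base c, base_lt L c⟩) j E := hU2 _ j hj' E
      show (u j)⁻¹ * (act a (flipWord L.word E) (L.state u) j).2 =
        (U (fun c => u ⟨L.base c, base_lt L c⟩) j E)⁻¹ * (act a (flipWord L.word E)
          (L.state fun j => U (fun c => u ⟨L.base c, base_lt L c⟩) j E) j).2
      rw [h1', h2, inv_mul_cancel, inv_mul_cancel]
  refine Nat.card_congr ⟨fun u => ⟨fun c => u.1 ⟨L.base c, base_lt L c⟩, fun c => ?_⟩,
    fun g => ⟨fun j => U g.1 j E, fun j => ?_⟩, fun u => ?_, fun g => ?_⟩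
  · have h1 : (act a (flipWord L.word E) (L.state u.1) (L.base c)).2 =
        u.1 ⟨L.base c, base_lt L c⟩ *
          if L.base c = L.base (L.comp (L.base c)) then b (L.comp (L.base c)) else 1 :=
      u.2 ⟨L.base c, base_lt L c⟩
    rw [comp_base, if_pos rfl] at h1
    have h5 := congrArg (fun v : Fin L.n → G =>
      (act a (flipWord L.word E) (L.state v) (L.base c)).2) (huniq u.1 u.2)
    exact h5.symm.trans h1
  · show out L a (U g.1) j E = U g.1 j E * if (j : ℕ) = L.base (L.comp j) then b (L.comp j) else 1
    by_cases hj : (j : ℕ) = L.base (L.comp j)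
    · rw [if_pos hj, hU1 _ j hj E]
      have := g.2 (L.comp j)
      rw [← hj] at this
      exact this
    · rw [if_neg hj, mul_one]
      exact hU2 _ j hj E
  · exact Subtype.ext (huniq u.1 u.2).symm
  · refine Subtype.ext (funext fun c => ?_)
    show U g.1 ⟨L.base c, base_lt L c⟩ E = g.1 c
    rw [hU1 g.1 ⟨L.base c, base_lt L c⟩ (by rw [comp_base]) E]
    rw [comp_base]

end

/-- Maps to a product. -/
theorem PC_pi {ι : Type*} [DecidableEq ι] (c : ℕ) (F : Fin k → Finset ι → G)
    (hF : ∀ i, F i ∈ PC ι G c) : (fun E i => F i E) ∈ PC ι (Fin k → G) c := by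
  classical
  let sw : (Fin k → Finset ι → G) →* (Finset ι → Fin k → G) :=
    { toFun := fun F E i => F i E
      map_one' := rfl
      map_mul' := fun _ _ => rfl }
  have h : F ∈ (PC ι (Fin k → G) c).comap sw := by
    refine Subgroup.pi_mem_of_mulSingle_mem F fun i => ?_
    let θ : (Finset ι → G) →* (Finset ι → Fin k → G) :=
      { toFun := fun f E => (Pi.mulSingle i (f E) : Fin k → G)
        map_one' := by
          funext E
          show (Pi.mulSingle i (1 : G) : Fin k → G) = 1
          exact Pi.mulSingle_one i
        map_mul' := fun f g => by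
          funext E
          show (Pi.mulSingle i (f E * g E) : Fin k → G) =
            (Pi.mulSingle i (f E) : Fin k → G) * (Pi.mulSingle i (g E) : Fin k → G)
          exact Pi.mulSingle_mul i _ _ }
    have hθ : PC ι G c ≤ (PC ι (Fin k → G) c).comap θ := by
      refine (Subgroup.closure_le _).2 ?_
      rintro _ ⟨S, g, hS, rfl⟩
      refine Subgroup.subset_closure ⟨S, (Pi.mulSingle i g : Fin k → G), hS, ?_⟩
      funext E
      show (Pi.mulSingle i (gen S g E) : Fin k → G) = gen S (Pi.mulSingle i g : Fin k → G) E
      unfold gen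
      split_ifs
      · rfl
      · exact Pi.mulSingle_one i
    have h1 := hθ (hF i)
    show sw (Pi.mulSingle i (F i)) ∈ PC ι (Fin k → G) c
    have e : sw (Pi.mulSingle i (F i)) = θ (F i) := by
      funext E j
      show (Pi.mulSingle i (F i) : Fin k → Finset ι → G) j E =
        (Pi.mulSingle i (F i E) : Fin k → G) j
      by_cases hij : j = i
      · subst hij
        simp
      · simp [hij]
    rw [e]
    exact h1
  exact h

theorem CDeg.sum {ι : Type*} {A : Type*} [AddCommGroup A] {D : ℕ}
    {X : Type*} (s : Finset X) (F : X → Finset ι → A) (h : ∀ x ∈ s, CDeg D (F x)) :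
    CDeg D (fun E => ∑ x ∈ s, F x E) := by
  classical
  induction s using Finset.induction_on with
  | empty => exact CDeg.zero _
  | insert x s hx ih =>
    have e : (fun E => ∑ y ∈ insert x s, F y E) = F x + fun E => ∑ y ∈ s, F y E := by
      funext E
      rw [Finset.sum_insert hx]
      rfl
    rw [e]
    exact (h x (Finset.mem_insert_self x s)).add
      (ih fun y hy => h y (Finset.mem_insert_of_mem hy))

/-- The number of colourings by a finite `p`-group is of finite type modulo every power of `p`. -/
theorem colourings_finiteType {p : ℕ} [hp : Fact p.Prime] [Finite G] (hG : IsPGroup p G)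
    (a b : Fin k → G) (e : ℕ) :
    FiniteType (fun L : Link k => (colourings L a b : ZMod (p ^ e))) := by
  classical
  haveI : Group.IsNilpotent G := hG.isNilpotent
  haveI : NeZero (p ^ e) := ⟨pow_ne_zero _ hp.out.ne_zero⟩
  obtain ⟨c, hc⟩ := nilpotent_iff_lowerCentralSeries.1 (inferInstance : Group.IsNilpotent G)
  have hH : IsPGroup p (Fin k → G) := by
    obtain ⟨m, hm⟩ := IsPGroup.iff_card.1 hG
    refine IsPGroup.iff_card.2 ⟨m * k, ?_⟩
    rw [Nat.card_fun, hm, Nat.card_eq_fintype_card, Fintype.card_fin, pow_mul]
  obtain ⟨d, hd⟩ := exists_Pol_eq_top (H := Fin k → G) (A := ZMod (p ^ e)) p hH e (by simp)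
  refine ⟨(c + 1) * d, fun L S hS => ?_⟩
  have := Fintype.ofFinite G
  choose U hU0 hU1 hU2 using fun g => exists_family L a (G := G) g
  let out' : (Fin k → G) → Finset (Fin L.word.length) → Fin k → G :=
    fun g E c => out L a (U g) (L.base c) E
  have hout : ∀ g, out' g ∈ PC (Fin L.word.length) (Fin k → G) (c + 1) := fun g =>
    PC_pi (c + 1) (fun i => out L a (U g) (L.base i))
      fun i => P_le_PC c hc (out_mem L a (U g) (hU0 g) _)
  let φ : (Fin k → G) → (Fin k → G) → ZMod (p ^ e) := fun g x => if x = g * b then 1 else 0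
  have hφ : ∀ E, (colourings (L.flip E) a b : ZMod (p ^ e)) = ∑ g, φ g (out' g E) := by
    intro E
    rw [card_flip L a b E U hU1 hU2, Nat.card_eq_fintype_card, Fintype.card_subtype,
      Finset.card_filter, Nat.cast_sum]
    refine Finset.sum_congr rfl fun g _ => ?_
    have : (∀ c, out L a (U g) (L.base c) E = g c * b c) ↔ out' g E = g * b := by
      constructor
      · intro h
        funext c
        exact h c
      · intro h c
        exact congrFun h c
    simp only [φ]
    by_cases h : out' g E = g * b
    · rw [if_pos h, if_pos (this.2 h), Nat.cast_one]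
    · rw [if_neg h, if_neg fun h' => h (this.1 h'), Nat.cast_zero]
  have hdeg : CDeg ((c + 1) * d) (fun E => (colourings (L.flip E) a b : ZMod (p ^ e))) := by
    have e1 : (fun E => (colourings (L.flip E) a b : ZMod (p ^ e))) =
        fun E => ∑ g, φ g (out' g E) := funext hφ
    rw [e1]
    refine CDeg.sum _ _ fun g _ => ?_
    refine cdeg_comp (c + 1) (Nat.succ_pos c) d (out' g) (hout g) (φ g) ?_
    rw [hd]
    exact AddSubgroup.mem_top _
  exact hdeg.alternating S hS.le

end H23.FT
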