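import Mathlib

/-!
# Functions on finite `p`-groups are polynomial
-/

namespace H23.FT

section Pol

variable (H A : Type*) [Group H] [AddCommGroup A]

/-- Functions of degree `< d`. -/
def Pol : ℕ → AddSubgroup (H → A)
  | 0 => ⊥
  | d + 1 =>
    { carrier := {φ | ∀ h : H, (fun x => φ (h * x) - φ x) ∈ Pol d}
      zero_mem' := by
        intro h
        have : (fun x : H => (0 : H → A) (h * x) - (0 : H → A) x) = 0 := by funext x; simp
        rw [this]
        exact zero_mem _
      add_mem' := by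
        intro φ ψ hφ hψ h
        have : (fun x => (φ + ψ) (h * x) - (φ + ψ) x) =
            (fun x => φ (h * x) - φ x) + (fun x => ψ (h * x) - ψ x) := by
          funext x; simp only [Pi.add_apply]; abel
        rw [this]
        exact add_mem (hφ h) (hψ h)
      neg_mem' := by
        intro φ hφ h
        have : (fun x => (-φ) (h * x) - (-φ) x) = -(fun x => φ (h * x) - φ x) := by
          funext x; simp only [Pi.neg_apply]; abel
        rw [this]
        exact neg_mem (hφ h) }

variable {H A}

theorem mem_Pol_zero {φ : H → A} : φ ∈ Pol H A 0 ↔ φ = 0 := Iff.rfl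

theorem mem_Pol_succ {d : ℕ} {φ : H → A} :
    φ ∈ Pol H A (d + 1) ↔ ∀ h : H, (fun x => φ (h * x) - φ x) ∈ Pol H A d := Iff.rfl

theorem Pol_translate (d : ℕ) (g : H) (φ : H → A) (h : φ ∈ Pol H A d) :
    (fun x => φ (g * x)) ∈ Pol H A d := by
  induction d generalizing φ with
  | zero =>
    rw [mem_Pol_zero] at h ⊢
    subst h
    rfl
  | succ d ih =>
    rw [mem_Pol_succ] at h ⊢
    intro k
    have h1 := ih _ (h (g * k * g⁻¹))
    have e : (fun x => φ (g * (k * x)) - φ (g * x)) =
        fun x => φ (g * k * g⁻¹ * (g * x)) - φ (g * x) := by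
      funext x
      rw [show g * k * g⁻¹ * (g * x) = g * (k * x) by group]
    rw [e]
    exact h1

theorem Pol_mono (d : ℕ) : Pol H A d ≤ Pol H A (d + 1) := by
  intro φ hφ h
  exact sub_mem (Pol_translate d h φ hφ) hφ

/-- Left translation. -/
def trans (h : H) : (H → A) →+ (H → A) where
  toFun φ := fun x => φ (h⁻¹ * x)
  map_zero' := rfl
  map_add' _ _ := rfl

theorem trans_le (d : ℕ) (h : H) : Pol H A d ≤ (Pol H A d).comap (trans h) :=
  fun φ hφ => Pol_translate d h⁻¹ φ hφ

/-- The action on the quotient by the functions of degree `< d`. -/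
@[reducible] def quotAction (d : ℕ) : MulAction H ((H → A) ⧸ Pol H A d) where
  smul h q := QuotientAddGroup.map _ _ (trans h) (trans_le d h) q
  one_smul q := by
    obtain ⟨φ, rfl⟩ := QuotientAddGroup.mk_surjective q
    show ((trans 1 φ : H → A) : (H → A) ⧸ Pol H A d) = _
    congr 1
    funext x
    show φ (1⁻¹ * x) = φ x
    simp
  mul_smul g h q := by
    obtain ⟨φ, rfl⟩ := QuotientAddGroup.mk_surjective q
    show ((trans (g * h) φ : H → A) : (H → A) ⧸ Pol H A d) =
      ((trans g (trans h φ) : H → A) : (H → A) ⧸ Pol H A d)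
    congr 1
    funext x
    show φ ((g * h)⁻¹ * x) = φ (h⁻¹ * (g⁻¹ * x))
    rw [mul_inv_rev, mul_assoc]

theorem Pol_eq_top_of (p : ℕ) [hp : Fact p.Prime] (hH : IsPGroup p H) [Finite H] [Finite A]
    (e : ℕ) (hA : Nat.card A = p ^ e) (d : ℕ) (h : Pol H A (d + 1) = Pol H A d) :
    Pol H A d = ⊤ := by
  by_contra hne
  letI := quotAction (H := H) (A := A) d
  have hcard : Nat.card (H → A) = p ^ (e * Nat.card H) := by
    rw [Nat.card_fun, hA, ← pow_mul]
  have hdvd : Nat.card ((H → A) ⧸ Pol H A d) ∣ p ^ (e * Nat.card H) := by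
    rw [← hcard]
    exact (Pol H A d).card_quotient_dvd_card
  obtain ⟨m, _, hm⟩ := (Nat.dvd_prime_pow hp.out).1 hdvd
  have hm0 : m ≠ 0 := by
    rintro rfl
    rw [pow_zero] at hm
    apply hne
    have : Subsingleton ((H → A) ⧸ Pol H A d) := (Nat.card_eq_one_iff_unique.1 hm).1
    exact QuotientAddGroup.subsingleton_iff.1 this
  have hpd : p ∣ Nat.card ((H → A) ⧸ Pol H A d) := by
    rw [hm]
    exact dvd_pow_self p hm0
  have h0 : (0 : (H → A) ⧸ Pol H A d) ∈ MulAction.fixedPoints H ((H → A) ⧸ Pol H A d) := by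
    intro g
    show QuotientAddGroup.map (Pol H A d) (Pol H A d) (trans g) (trans_le d g) 0 = 0
    exact map_zero _
  obtain ⟨q, hq, hq0⟩ :=
    hH.exists_fixed_point_of_prime_dvd_card_of_fixed_point _ hpd h0
  obtain ⟨φ, rfl⟩ := QuotientAddGroup.mk_surjective q
  apply hq0
  symm
  rw [QuotientAddGroup.eq_zero_iff, ← h, mem_Pol_succ]
  intro g
  have h1 : ((trans g⁻¹ φ : H → A) : (H → A) ⧸ Pol H A d) = (φ : (H → A) ⧸ Pol H A d) := hq g⁻¹
  rw [eq_comm, QuotientAddGroup.eq] at h1
  have e : (fun x => φ (g * x) - φ x) = -φ + trans g⁻¹ φ := by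
    funext x
    show φ (g * x) - φ x = -φ x + φ (g⁻¹⁻¹ * x)
    rw [inv_inv]
    abel
  rw [e]
  exact h1

/-- Every function from a finite `p`-group to a finite abelian `p`-group is polynomial. -/
theorem exists_Pol_eq_top (p : ℕ) [hp : Fact p.Prime] (hH : IsPGroup p H) [Finite H] [Finite A]
    (e : ℕ) (hA : Nat.card A = p ^ e) : ∃ d, Pol H A d = ⊤ := by
  have hmono : Monotone (Pol H A) := monotone_nat_of_le_succ Pol_mono
  obtain ⟨d, hd⟩ := WellFoundedGT.monotone_chain_condition ⟨Pol H A, hmono⟩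
  exact ⟨d, Pol_eq_top_of p hH e hA d (hd (d + 1) (Nat.le_succ d)).symm⟩

end Pol

/-! ### Functions on the cube -/

section Cube

variable {ι : Type*} [DecidableEq ι] {A : Type*} [AddCommGroup A]

/-- `F` has degree `< D` on the cube. -/
def CDeg (D : ℕ) (F : Finset ι → A) : Prop :=
  ∃ r : Finset ι → A, (∀ S, D ≤ S.card → r S = 0) ∧ ∀ E, F E = ∑ S ∈ E.powerset, r S

theorem CDeg.mono {D D' : ℕ} (h : D ≤ D') {F : Finset ι → A} (hF : CDeg D F) : CDeg D' F := by
  obtain ⟨r, h1, h2⟩ := hF
  exact ⟨r, fun S hS => h1 S (h.trans hS), h2⟩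

theorem CDeg.add {D : ℕ} {F F' : Finset ι → A} (hF : CDeg D F) (hF' : CDeg D F') :
    CDeg D (F + F') := by
  obtain ⟨r, h1, h2⟩ := hF
  obtain ⟨r', h1', h2'⟩ := hF'
  refine ⟨r + r', fun S hS => ?_, fun E => ?_⟩
  · rw [Pi.add_apply, h1 S hS, h1' S hS, add_zero]
  · rw [Pi.add_apply, h2, h2', ← Finset.sum_add_distrib]
    rfl

theorem CDeg.const (D : ℕ) (hD : 0 < D) (x : A) : CDeg D (fun _ : Finset ι => x) := by
  refine ⟨fun S => if S = ∅ then x else 0, fun S hS => ?_, fun E => ?_⟩
  · show (if S = ∅ then x else 0) = 0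
    rw [if_neg]
    rintro rfl
    simp only [Finset.card_empty] at hS
    omega
  · show x = ∑ S ∈ E.powerset, if S = ∅ then x else 0
    rw [Finset.sum_ite_eq' , if_pos (Finset.empty_mem_powerset E)]

theorem CDeg.zero (D : ℕ) : CDeg D (fun _ : Finset ι => (0 : A)) :=
  ⟨fun _ => 0, fun _ _ => rfl, fun E => by simp⟩

theorem CDeg.indicator {D : ℕ} {F : Finset ι → A} (hF : CDeg D F) (S : Finset ι) (c : ℕ)
    (hS : S.card ≤ c) : CDeg (D + c) (fun E => if S ⊆ E then F E else 0) := by
  classical
  obtain ⟨r, h1, h2⟩ := hF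
  refine ⟨fun U => ∑ T ∈ U.powerset, if T ∪ S = U then r T else 0, fun U hU => ?_, fun E => ?_⟩
  · refine Finset.sum_eq_zero fun T _ => ?_
    split_ifs with h
    · refine h1 T ?_
      have : U.card ≤ T.card + S.card := by rw [← h]; exact Finset.card_union_le T S
      omega
    · rfl
  · have e : ∀ U ∈ E.powerset, (∑ T ∈ U.powerset, if T ∪ S = U then r T else 0) =
        ∑ T ∈ E.powerset, if T ∪ S = U then r T else 0 := by
      intro U hU
      refine Finset.sum_subset (Finset.powerset_mono.2 (Finset.mem_powerset.1 hU)) ?_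
      intro T _ hT
      rw [if_neg]
      intro h
      apply hT
      rw [Finset.mem_powerset, ← h]
      exact Finset.subset_union_left
    rw [Finset.sum_congr rfl e, Finset.sum_comm]
    show (if S ⊆ E then F E else 0) = _
    split_ifs with hSE
    · rw [h2]
      refine Finset.sum_congr rfl fun T hT => ?_
      rw [Finset.sum_ite_eq, if_pos]
      exact Finset.mem_powerset.2 (Finset.union_subset (Finset.mem_powerset.1 hT) hSE)
    · symm
      refine Finset.sum_eq_zero fun T _ => Finset.sum_eq_zero fun U hU => ?_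
      rw [if_neg]
      rintro rfl
      exact hSE (Finset.subset_union_right.trans (Finset.mem_powerset.1 hU))

theorem CDeg.alternating {D : ℕ} {F : Finset ι → A} (hF : CDeg D F) (S : Finset ι)
    (hS : D ≤ S.card) : ∑ E ∈ S.powerset, (-1 : ℤ) ^ E.card • F E = 0 := by
  classical
  obtain ⟨r, h1, h2⟩ := hF
  have e : ∀ E ∈ S.powerset, (-1 : ℤ) ^ E.card • F E =
      ∑ T ∈ S.powerset, if T ⊆ E then (-1 : ℤ) ^ E.card • r T else 0 := by
    intro E hE
    rw [h2, Finset.smul_sum]
    have : E.powerset = S.powerset.filter (fun T => T ⊆ E) := by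
      ext T
      simp only [Finset.mem_powerset, Finset.mem_filter]
      exact ⟨fun h => ⟨h.trans (Finset.mem_powerset.1 hE), h⟩, fun h => h.2⟩
    rw [this, Finset.sum_filter]
  rw [Finset.sum_congr rfl e, Finset.sum_comm]
  refine Finset.sum_eq_zero fun T hT => ?_
  by_cases hTS : T = S
  · subst hTS
    rw [h1 T hS]
    simp
  have hT' : T ⊆ S := Finset.mem_powerset.1 hT
  have hne : (S \ T).Nonempty := by
    rw [Finset.nonempty_iff_ne_empty, Ne, Finset.sdiff_eq_empty_iff_subset]
    exact fun h => hTS (Finset.Subset.antisymm hT' h)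
  have e2 : S.powerset.filter (fun E => T ⊆ E) = (S \ T).powerset.image (fun U => T ∪ U) := by
    ext E
    simp only [Finset.mem_filter, Finset.mem_powerset, Finset.mem_image]
    constructor
    · rintro ⟨h3, h4⟩
      refine ⟨E \ T, Finset.sdiff_subset_sdiff h3 (Finset.Subset.refl T), ?_⟩
      exact Finset.union_sdiff_of_subset h4
    · rintro ⟨U, hU, rfl⟩
      exact ⟨Finset.union_subset hT' (hU.trans Finset.sdiff_subset), Finset.subset_union_left⟩
  rw [← Finset.sum_filter, e2, Finset.sum_image]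
  · have e3 : ∀ U ∈ (S \ T).powerset, (-1 : ℤ) ^ (T ∪ U).card • r T =
        (-1 : ℤ) ^ U.card • ((-1 : ℤ) ^ T.card • r T) := by
      intro U hU
      have hd : Disjoint T U := by
        rw [Finset.disjoint_left]
        intro x hx hxU
        exact (Finset.mem_sdiff.1 (Finset.mem_powerset.1 hU hxU)).2 hx
      rw [Finset.card_union_of_disjoint hd, smul_smul, add_comm, pow_add]
    rw [Finset.sum_congr rfl e3, ← Finset.sum_smul,
      Finset.sum_powerset_neg_one_pow_card_of_nonempty hne, zero_smul]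
  · intro U hU U' hU' h
    have hU1 := Finset.mem_powerset.1 hU
    have hU2 := Finset.mem_powerset.1 hU'
    ext x
    have hx := congrArg (fun Y => x ∈ Y) h
    simp only [Finset.mem_union, eq_iff_iff] at hx
    constructor
    · intro hxU
      rcases hx.1 (Or.inr hxU) with h5 | h5
      · exact absurd h5 (Finset.mem_sdiff.1 (hU1 hxU)).2
      · exact h5
    · intro hxU
      rcases hx.2 (Or.inr hxU) with h5 | h5
      · exact absurd h5 (Finset.mem_sdiff.1 (hU2 hxU)).2
      · exact h5

end Cube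

/-! ### Polynomial maps from the cube to a group -/

section Gen

variable {ι : Type*} [DecidableEq ι] {H : Type*} [Group H]

/-- The map which is `g` on the supersets of `S` and `1` elsewhere. -/
def gen (S : Finset ι) (g : H) : Finset ι → H := fun E => if S ⊆ E then g else 1

/-- Products of maps `gen S g` with `S` of size at most `c`. -/
def PC (ι : Type*) [DecidableEq ι] (H : Type*) [Group H] (c : ℕ) : Subgroup (Finset ι → H) :=
  Subgroup.closure {f | ∃ (S : Finset ι) (g : H), S.card ≤ c ∧ f = gen S g}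

theorem gen_inv (S : Finset ι) (g : H) : (gen S g)⁻¹ = gen S g⁻¹ := by
  funext E
  unfold gen
  rw [Pi.inv_apply]
  split_ifs
  · rfl
  · exact inv_one

/-- Composition of a function of degree `< d` and a product of generators. -/
theorem cdeg_comp {A : Type*} [AddCommGroup A] (c : ℕ) (hc : 0 < c) (d : ℕ) :
    ∀ f ∈ PC ι H c, ∀ φ ∈ Pol H A d, CDeg (c * d) (fun E => φ (f E)) := by
  induction d with
  | zero =>
    intro f _ φ hφ
    rw [mem_Pol_zero] at hφ
    subst hφ
    exact CDeg.zero _
  | succ d ihd =>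
    have hstep : ∀ (S : Finset ι) (g : H), S.card ≤ c → ∀ f ∈ PC ι H c,
        (∀ φ ∈ Pol H A (d + 1), CDeg (c * (d + 1)) (fun E => φ (f E))) →
        ∀ φ ∈ Pol H A (d + 1), CDeg (c * (d + 1)) (fun E => φ ((gen S g * f) E)) := by
      intro S g hS f hfm hf φ hφ
      have e : (fun E => φ ((gen S g * f) E)) = (fun E => φ (f E)) +
          fun E => if S ⊆ E then φ (g * f E) - φ (f E) else 0 := by
        funext E
        simp only [Pi.mul_apply, Pi.add_apply, gen]
        split_ifs
        · abel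
        · rw [one_mul, add_zero]
      rw [e]
      refine (hf φ hφ).add ?_
      have h1 := ihd f hfm _ (mem_Pol_succ.1 hφ g)
      have h2 := h1.indicator S c hS
      rw [show c * (d + 1) = c * d + c by ring]
      exact h2
    intro f hf
    refine Subgroup.closure_induction_left (p := fun (f : Finset ι → H) _ =>
      ∀ φ : H → A, φ ∈ Pol H A (d + 1) → CDeg (c * (d + 1)) (fun E => φ (f E))) ?_ ?_ ?_ hf
    · intro φ _
      exact CDeg.const (c * (d + 1)) (Nat.mul_pos hc (Nat.succ_pos d)) (φ 1)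
    · rintro x ⟨S, g, hS, rfl⟩ y hy ih
      exact hstep S g hS y hy ih
    · rintro x ⟨S, g, hS, rfl⟩ y hy ih
      rw [gen_inv]
      exact hstep S g⁻¹ hS y hy ih

end Gen

end H23.FT
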