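import Pool.Agent.H23.FT.Run
import Pool.Agent.H23.FT.Poly

/-!
# Maps from the cube to a group which are adapted to the lower central series
-/

namespace H23.FT

open scoped commutatorElement

section LCS

variable {G : Type*} [Group G]

/-- The three subgroups lemma modulo a normal subgroup. -/
theorem three_subgroups (N H₁ H₂ H₃ : Subgroup G) [N.Normal] (h1 : ⁅⁅H₂, H₃⁆, H₁⁆ ≤ N)
    (h2 : ⁅⁅H₃, H₁⁆, H₂⁆ ≤ N) : ⁅⁅H₁, H₂⁆, H₃⁆ ≤ N := by
  have key : ∀ K : Subgroup G, K ≤ N ↔ K.map (QuotientGroup.mk' N) = ⊥ := by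
    intro K
    rw [Subgroup.map_eq_bot_iff, QuotientGroup.ker_mk']
  rw [key] at h1 h2 ⊢
  rw [Subgroup.map_commutator, Subgroup.map_commutator] at h1 h2 ⊢
  exact Subgroup.commutator_commutator_eq_bot_of_rotate h1 h2

variable (G) in
/-- The lower central series, `Γ 0 = G`. -/
abbrev lcs (i : ℕ) : Subgroup G := (⊤ : Subgroup G).lowerCentralSeries i

theorem comm_lcs (i j : ℕ) : ⁅lcs G i, lcs G j⁆ ≤ lcs G (i + j + 1) := by
  induction j generalizing i with
  | zero => exact le_of_eq rfl
  | succ j ih =>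
    have e : lcs G (j + 1) = ⁅lcs G j, ⊤⁆ := rfl
    rw [Subgroup.commutator_comm, e]
    refine three_subgroups _ _ _ _ ?_ ?_
    · rw [Subgroup.commutator_comm ⊤ (lcs G i)]
      have := ih (i + 1)
      rw [show i + (j + 1) + 1 = i + 1 + j + 1 by ring]
      exact this
    · have h : ⁅⁅lcs G i, lcs G j⁆, (⊤ : Subgroup G)⁆ ≤ ⁅lcs G (i + j + 1), ⊤⁆ :=
        Subgroup.commutator_mono (ih i) le_rfl
      exact h

theorem lcs_anti {i j : ℕ} (h : i ≤ j) : lcs G j ≤ lcs G i :=
  (⊤ : Subgroup G).lowerCentralSeries_antitone h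

end LCS

section P

variable {ι : Type*} [DecidableEq ι] {G : Type*} [Group G]

variable (ι G) in
/-- Products of maps `gen S g`, `g` in the term `|S| - δ` of the lower central series. -/
def P (δ : ℕ) : Subgroup (Finset ι → G) :=
  Subgroup.closure {f | ∃ (S : Finset ι) (g : G), g ∈ lcs G (S.card - δ) ∧ f = gen S g}

theorem gen_mem_P {δ : ℕ} {S : Finset ι} {g : G} (h : g ∈ lcs G (S.card - δ)) :
    gen S g ∈ P ι G δ := Subgroup.subset_closure ⟨S, g, h, rfl⟩

theorem gen_one (S : Finset ι) : gen S (1 : G) = 1 := by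
  funext E
  unfold gen
  split_ifs <;> rfl

theorem const_mem_P (δ : ℕ) (g : G) : (fun _ : Finset ι => g) ∈ P ι G δ := by
  have : (fun _ : Finset ι => g) = gen ∅ g := by
    funext E
    unfold gen
    rw [if_pos (Finset.empty_subset E)]
  rw [this]
  refine gen_mem_P ?_
  rw [Finset.card_empty, Nat.zero_sub]
  exact Subgroup.mem_top g

theorem P_zero_le : P ι G 0 ≤ P ι G 1 := by
  refine (Subgroup.closure_le _).2 ?_
  rintro _ ⟨S, g, hg, rfl⟩
  exact gen_mem_P (lcs_anti (by omega) hg)

theorem gen_comm (S T : Finset ι) (g h : G) :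
    gen S g * gen T h * (gen S g)⁻¹ = gen (S ∪ T) ⁅g, h⁆ * gen T h := by
  funext E
  simp only [Pi.mul_apply, Pi.inv_apply, gen, commutatorElement_def]
  by_cases h1 : S ⊆ E
  · by_cases h2 : T ⊆ E
    · rw [if_pos h1, if_pos h2, if_pos (Finset.union_subset h1 h2)]
      group
    · rw [if_pos h1, if_neg h2, if_neg fun h => h2 (Finset.subset_union_right.trans h)]
      group
  · rw [if_neg h1, if_neg fun h => h1 (Finset.subset_union_left.trans h)]
    group

/-- Conjugation of `P δ`, `δ ≤ 1`, by a generator of `P 1`. -/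
theorem conj_gen {δ : ℕ} (hδ : δ ≤ 1) {S : Finset ι} {g : G} (hg : g ∈ lcs G (S.card - 1))
    {y : Finset ι → G} (hy : y ∈ P ι G δ) : gen S g * y * (gen S g)⁻¹ ∈ P ι G δ := by
  unfold P at hy
  induction hy using Subgroup.closure_induction with
  | mem y hy =>
    obtain ⟨T, h, hh, rfl⟩ := hy
    rw [gen_comm]
    refine mul_mem (gen_mem_P ?_) (gen_mem_P hh)
    have h1 : ⁅g, h⁆ ∈ lcs G ((S.card - 1) + (T.card - δ) + 1) :=
      comm_lcs _ _ (Subgroup.commutator_mem_commutator hg hh)
    refine lcs_anti ?_ h1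
    have := Finset.card_union_le S T
    omega
  | one =>
    rw [mul_one, mul_inv_cancel]
    exact one_mem _
  | mul x y _ _ hx hy =>
    have : gen S g * (x * y) * (gen S g)⁻¹ =
        (gen S g * x * (gen S g)⁻¹) * (gen S g * y * (gen S g)⁻¹) := by group
    rw [this]
    exact mul_mem hx hy
  | inv x _ hx =>
    have : gen S g * x⁻¹ * (gen S g)⁻¹ = (gen S g * x * (gen S g)⁻¹)⁻¹ := by group
    rw [this]
    exact inv_mem hx

theorem conj_mem {δ : ℕ} (hδ : δ ≤ 1) {x : Finset ι → G} (hx : x ∈ P ι G 1) :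
    ∀ y ∈ P ι G δ, x * y * x⁻¹ ∈ P ι G δ := by
  unfold P at hx
  induction hx using Subgroup.closure_induction_left with
  | one =>
    intro y hy
    rw [one_mul, inv_one, mul_one]
    exact hy
  | mul_left x hx z _ hz =>
    intro y hy
    obtain ⟨S, g, hg, rfl⟩ := hx
    have := conj_gen hδ hg (hz y hy)
    have e : gen S g * z * y * (gen S g * z)⁻¹ = gen S g * (z * y * z⁻¹) * (gen S g)⁻¹ := by group
    rw [e]
    exact this
  | inv_mul_cancel x hx z _ hz =>
    intro y hy
    obtain ⟨S, g, hg, rfl⟩ := hx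
    have := conj_gen hδ (inv_mem hg) (hz y hy)
    have e : (gen S g)⁻¹ * z * y * ((gen S g)⁻¹ * z)⁻¹ =
        gen S g⁻¹ * (z * y * z⁻¹) * (gen S g⁻¹)⁻¹ := by rw [gen_inv]; group
    rw [e]
    exact this

/-- Restriction to the sets which contain `t`. -/
def chi (t : ι) : (Finset ι → G) →* (Finset ι → G) where
  toFun f := fun E => if t ∈ E then f E else 1
  map_one' := by funext E; simp
  map_mul' f g := by
    funext E
    by_cases h : t ∈ E <;> simp [h]

theorem chi_gen (t : ι) (S : Finset ι) (g : G) : chi t (gen S g) = gen (insert t S) g := by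
  funext E
  show (if t ∈ E then gen S g E else 1) = _
  unfold gen
  by_cases h : t ∈ E
  · rw [if_pos h]
    by_cases h2 : S ⊆ E
    · rw [if_pos h2, if_pos (Finset.insert_subset h h2)]
    · rw [if_neg h2, if_neg fun h3 => h2 ((Finset.subset_insert t S).trans h3)]
  · rw [if_neg h, if_neg fun h3 => h (h3 (Finset.mem_insert_self t S))]

theorem chi_mem (t : ι) {f : Finset ι → G} (hf : f ∈ P ι G 0) : chi t f ∈ P ι G 1 := by
  have : (P ι G 0) ≤ (P ι G 1).comap (chi t) := by
    refine (Subgroup.closure_le _).2 ?_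
    rintro _ ⟨S, g, hg, rfl⟩
    show chi t (gen S g) ∈ P ι G 1
    rw [chi_gen]
    refine gen_mem_P (lcs_anti ?_ hg)
    have := Finset.card_insert_le t S
    omega
  exact this hf

theorem restrict_mem (t : ι) (ε : Bool) {f : Finset ι → G} (hf : f ∈ P ι G 0) :
    (fun E => if xor ε (decide (t ∈ E)) then f E else 1) ∈ P ι G 1 := by
  cases ε with
  | false =>
    have : (fun E => if xor false (decide (t ∈ E)) then f E else 1) = chi t f := by
      funext E
      show _ = if t ∈ E then f E else 1
      by_cases h : t ∈ E <;> simp [h]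
    rw [this]
    exact chi_mem t hf
  | true =>
    have : (fun E => if xor true (decide (t ∈ E)) then f E else 1) = f * (chi t f)⁻¹ := by
      funext E
      show _ = f E * (if t ∈ E then f E else 1)⁻¹
      by_cases h : t ∈ E <;> simp [h]
    rw [this]
    exact mul_mem (P_zero_le hf) (inv_mem (chi_mem t hf))

theorem P_le_PC (c : ℕ) (hc : lcs G c = ⊥) : P ι G 1 ≤ PC ι G (c + 1) := by
  refine (Subgroup.closure_le _).2 ?_
  rintro _ ⟨S, g, hg, rfl⟩
  by_cases hS : S.card ≤ c + 1
  · exact Subgroup.subset_closure ⟨S, g, hS, rfl⟩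
  · have : g ∈ lcs G c := lcs_anti (by omega) hg
    rw [hc, Subgroup.mem_bot] at this
    rw [this, gen_one]
    exact one_mem _

end P

/-! ### Families of states -/

section Fam

variable {ι : Type*} [DecidableEq ι] {G : Type*} [Group G] {k : ℕ}

/-- A family of states of the strands, indexed by the cube. -/
def Fam (s : Finset ι → ℕ → Fin k × G) : Prop :=
  (∀ j, (fun E => (s E j).2) ∈ P ι G 1) ∧ ∀ E E' j, (s E j).1 = (s E' j).1

theorem Fam.step {s : Finset ι → ℕ → Fin k × G} (hs : Fam s) (a : Fin k → G) (i : ℕ) (ε : Bool)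
    (t : ι) : Fam fun E => cross a (i, xor ε (decide (t ∈ E))) (s E) := by
  obtain ⟨h1, h2⟩ := hs
  refine ⟨fun j => ?_, fun E E' j => ?_⟩
  · by_cases hj : j = i
    · subst hj
      let m : G := a (s ∅ j).1
      let r : G := if (s ∅ j).1 = (s ∅ (j + 1)).1 then (a (s ∅ j).1)⁻¹ else 1
      let h : Finset ι → G := ((fun E => (s E j).2) * (fun _ => m) * (fun E => (s E j).2)⁻¹) *
        ((fun E => (s E (j + 1)).2) * (fun _ => r) * (fun E => (s E (j + 1)).2)⁻¹)
      have hh : h ∈ P ι G 0 := mul_mem (conj_mem (by omega) (h1 j) _ (const_mem_P 0 m))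
        (conj_mem (by omega) (h1 (j + 1)) _ (const_mem_P 0 r))
      have e : (fun E => (cross a (j, xor ε (decide (t ∈ E))) (s E) j).2) =
          (fun E => if xor ε (decide (t ∈ E)) then h E else 1) * fun E => (s E (j + 1)).2 := by
        funext E
        rw [Pi.mul_apply]
        cases hx : xor ε (decide (t ∈ E)) with
        | true =>
          rw [cross_left_true, if_pos rfl]
          show (s E j).2 * a (s E j).1 * (s E j).2⁻¹ * (s E (j + 1)).2 *
            (if (s E j).1 = (s E (j + 1)).1 then (a (s E j).1)⁻¹ else 1) =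
            (s E j).2 * m * (s E j).2⁻¹ * ((s E (j + 1)).2 * r * (s E (j + 1)).2⁻¹) *
              (s E (j + 1)).2
          rw [h2 E ∅ j, h2 E ∅ (j + 1)]
          simp only [m, r]
          group
        | false =>
          rw [cross_left_false, if_neg (by simp), one_mul]
      rw [e]
      exact mul_mem (restrict_mem t ε hh) (h1 (j + 1))
    · by_cases hj2 : j = i + 1
      · subst hj2
        let m : G := (a (s ∅ (i + 1)).1)⁻¹
        let r : G := if (s ∅ (i + 1)).1 = (s ∅ i).1 then a (s ∅ (i + 1)).1 else 1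
        let h : Finset ι → G :=
          ((fun E => (s E (i + 1)).2) * (fun _ => m) * (fun E => (s E (i + 1)).2)⁻¹) *
          ((fun E => (s E i).2) * (fun _ => r) * (fun E => (s E i).2)⁻¹)
        have hh : h ∈ P ι G 0 := mul_mem (conj_mem (by omega) (h1 (i + 1)) _ (const_mem_P 0 m))
          (conj_mem (by omega) (h1 i) _ (const_mem_P 0 r))
        have e : (fun E => (cross a (i, xor ε (decide (t ∈ E))) (s E) (i + 1)).2) =
            (fun E => if xor (!ε) (decide (t ∈ E)) then h E else 1) * fun E => (s E i).2 := by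
          funext E
          rw [Pi.mul_apply]
          have hb : xor (!ε) (decide (t ∈ E)) = !(xor ε (decide (t ∈ E))) := by
            cases ε <;> cases (decide (t ∈ E)) <;> rfl
          rw [hb]
          cases hx : xor ε (decide (t ∈ E)) with
          | true =>
            rw [cross_right_true, if_neg (by simp), one_mul]
          | false =>
            rw [cross_right_false, if_pos (by simp)]
            show (s E (i + 1)).2 * (a (s E (i + 1)).1)⁻¹ * (s E (i + 1)).2⁻¹ * (s E i).2 *
              (if (s E (i + 1)).1 = (s E i).1 then a (s E (i + 1)).1 else 1) =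
              (s E (i + 1)).2 * m * (s E (i + 1)).2⁻¹ * ((s E i).2 * r * (s E i).2⁻¹) *
                (s E i).2
            rw [h2 E ∅ i, h2 E ∅ (i + 1)]
            simp only [m, r]
            group
        rw [e]
        exact mul_mem (restrict_mem t (!ε) hh) (h1 i)
      · have e : (fun E => (cross a (i, xor ε (decide (t ∈ E))) (s E) j).2) =
            fun E => (s E j).2 := by
          funext E
          rw [cross_of_ne a _ _ j hj hj2]
        rw [e]
        exact h1 j
  · rw [cross_fst, cross_fst]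
    exact h2 E E' _

/-- The word with signs changed by `E`. -/
def inst (E : Finset ι) (W : List (ℕ × Bool × ι)) : List Letter :=
  W.map fun x => (x.1, xor x.2.1 (decide (x.2.2 ∈ E)))

theorem Fam.run (a : Fin k → G) (W : List (ℕ × Bool × ι)) {s : Finset ι → ℕ → Fin k × G}
    (hs : Fam s) : Fam fun E => act a (inst E W) (s E) := by
  induction W generalizing s with
  | nil => exact hs
  | cons x W ih => exact ih (hs.step a x.1 x.2.1 x.2.2)

end Fam

theorem flipWord_eq (w : List Letter) (E : Finset (Fin w.length)) :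
    flipWord w E = inst E (List.ofFn fun t : Fin w.length => ((w.get t).1, (w.get t).2, t)) := by
  unfold flipWord inst
  rw [List.map_ofFn]
  rfl

end H23.FT
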