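import Pool.Agent.H23.FT.Knot

/-!
# The link group, its meridians and longitudes

The Artin presentation of the group of a closed braid: the generators are the meridians `x j` of
the strands at the top of the braid; they are transported through the braid, and the relators say
that the meridians at the bottom are the meridians at the top.
-/

namespace H23.FT

variable {k : ℕ} {G : Type*} [Group G]

/-- The meridian of a strand `(c, x, q)`: it belongs to the component `c`, had the meridian `x` at
the top of the braid, and `q` has been collected on the way. -/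
def mer (s : Fin k × G × G) : G := s.2.2 * s.2.1 * s.2.2⁻¹

/-- The strand `t` passes under the strand `s` at a positive crossing: it collects the meridian of
`s`, and `x⁻¹` if both strands belong to the same component. -/
def under (s t : Fin k × G × G) : Fin k × G × G :=
  (t.1, t.2.1, mer s * t.2.2 * if s.1 = t.1 then t.2.1⁻¹ else 1)

/-- The same for a negative crossing. -/
def underInv (s t : Fin k × G × G) : Fin k × G × G :=
  (t.1, t.2.1, (mer s)⁻¹ * t.2.2 * if s.1 = t.1 then t.2.1 else 1)

/-- Effect of a crossing on the strands. -/
def wcross (l : Letter) (s : ℕ → Fin k × G × G) : ℕ → Fin k × G × G := fun j =>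
  if j = l.1 then (if l.2 then under (s l.1) (s (l.1 + 1)) else s (l.1 + 1))
  else if j = l.1 + 1 then (if l.2 then s l.1 else underInv (s (l.1 + 1)) (s l.1))
  else s j

/-- Effect of a braid word. -/
def trace : List Letter → (ℕ → Fin k × G × G) → (ℕ → Fin k × G × G)
  | [], s => s
  | l :: w, s => trace w (wcross l s)

/-- The strands at the top of the braid, with the meridians `x`. -/
def Link.top (L : Link k) (x : Fin L.n → G) : ℕ → Fin k × G × G := fun j =>
  (L.comp j, if h : j < L.n then x ⟨j, h⟩ else 1, 1)

/-- The relators of the link group. -/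
def relators (L : Link k) : Set (FreeGroup (Fin L.n)) :=
  Set.range fun j : Fin L.n =>
    mer (trace L.word (L.top FreeGroup.of) j) * (FreeGroup.of j)⁻¹

/-- The link group, i.e. the fundamental group of the complement of the link. -/
abbrev LinkGroup (L : Link k) : Type := PresentedGroup (relators L)

/-- The meridian of the component `c` (at its base point). -/
def meridian (L : Link k) (c : Fin k) : LinkGroup L :=
  PresentedGroup.of ⟨L.base c, base_lt L c⟩

/-- What the strand which starts in the position `j` collects in the braid. -/
def path (L : Link k) (x : Fin L.n → G) (j : ℕ) : G :=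
  (trace L.word (L.top x) (perm L.word j)).2.2

/-- What is collected by running `m` times through the braid, starting in the position `j`. -/
def lam (L : Link k) (x : Fin L.n → G) (j : ℕ) : ℕ → G
  | 0 => 1
  | m + 1 => path L x ((perm L.word ^ m) j) * lam L x j m

theorem exists_return (L : Link k) (c : Fin k) :
    ∃ r : ℕ, 0 < r ∧ (perm L.word ^ r) (L.base c) = L.base c := by
  have h1 := base_lt L c
  have h2 : perm L.word (L.base c) < L.n := (perm_lt_iff _ _ L.lt _).2 h1
  obtain ⟨m, hm⟩ := L.conn _ h2 _ h1 (L.closed _ h1)
  exact ⟨m + 1, Nat.succ_pos m, by rw [pow_succ, Equiv.Perm.mul_apply, hm]⟩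

/-- The number of strands of the component `c`: the component returns to its base point after
running so many times through the braid. -/
def Link.period (L : Link k) (c : Fin k) : ℕ := Nat.find (exists_return L c)

/-- The longitude of the component `c` (at its base point), of linking number `0` with the
component. -/
def longitude (L : Link k) (c : Fin k) : LinkGroup L :=
  lam L PresentedGroup.of (L.base c) (L.period c)

/-- The number of pairs of a homomorphism `ρ` from the link group to `G` and a tuple `g` of
elements of `G`, such that `ρ` takes the meridian and the longitude of each component `c` to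
`g c * a c * (g c)⁻¹` and `g c * b c * (g c)⁻¹`. -/
noncomputable def peripheralCount (L : Link k) (a b : Fin k → G) : ℕ :=
  Nat.card {q : (LinkGroup L →* G) × (Fin k → G) // ∀ c,
    q.1 (meridian L c) = q.2 c * a c * (q.2 c)⁻¹ ∧
    q.1 (longitude L c) = q.2 c * b c * (q.2 c)⁻¹}

/-! ### Lemmas -/

theorem wcross_left_true (i : ℕ) (s : ℕ → Fin k × G × G) :
    wcross (i, true) s i = under (s i) (s (i + 1)) := by simp [wcross]

theorem wcross_right_true (i : ℕ) (s : ℕ → Fin k × G × G) :
    wcross (i, true) s (i + 1) = s i := by simp [wcross]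

theorem wcross_left_false (i : ℕ) (s : ℕ → Fin k × G × G) :
    wcross (i, false) s i = s (i + 1) := by simp [wcross]

theorem wcross_right_false (i : ℕ) (s : ℕ → Fin k × G × G) :
    wcross (i, false) s (i + 1) = underInv (s (i + 1)) (s i) := by simp [wcross]

theorem wcross_of_ne (l : Letter) (s : ℕ → Fin k × G × G) (j : ℕ) (h1 : j ≠ l.1)
    (h2 : j ≠ l.1 + 1) : wcross l s j = s j := by simp [wcross, h1, h2]

theorem wcross_top (l : Letter) (s : ℕ → Fin k × G × G) (j : ℕ) :
    (wcross l s j).1 = (s (Equiv.swap l.1 (l.1 + 1) j)).1 ∧
      (wcross l s j).2.1 = (s (Equiv.swap l.1 (l.1 + 1) j)).2.1 := by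
  obtain ⟨i, ε⟩ := l
  by_cases h1 : j = i
  · subst h1
    rw [Equiv.swap_apply_left]
    cases ε
    · rw [wcross_left_false]; exact ⟨rfl, rfl⟩
    · rw [wcross_left_true]; exact ⟨rfl, rfl⟩
  · by_cases h2 : j = i + 1
    · subst h2
      rw [Equiv.swap_apply_right]
      cases ε
      · rw [wcross_right_false]; exact ⟨rfl, rfl⟩
      · rw [wcross_right_true]; exact ⟨rfl, rfl⟩
    · rw [wcross_of_ne _ s j h1 h2, Equiv.swap_apply_of_ne_of_ne h1 h2]; exact ⟨rfl, rfl⟩

theorem trace_top (w : List Letter) (s : ℕ → Fin k × G × G) (j : ℕ) :
    (trace w s (perm w j)).1 = (s j).1 ∧ (trace w s (perm w j)).2.1 = (s j).2.1 := by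
  induction w generalizing s j with
  | nil => exact ⟨rfl, rfl⟩
  | cons l w ih =>
    have h1 := ih (wcross l s) (Equiv.swap l.1 (l.1 + 1) j)
    have h2 := wcross_top l s (Equiv.swap l.1 (l.1 + 1) j)
    rw [Equiv.swap_apply_self] at h2
    exact ⟨h1.1.trans h2.1, h1.2.trans h2.2⟩

theorem map_mer {H : Type*} [Group H] (f : G →* H) (s : Fin k × G × G) :
    f (mer s) = mer (s.1, f s.2.1, f s.2.2) := by
  simp [mer]

theorem map_wcross {H : Type*} [Group H] (f : G →* H) (l : Letter) (s : ℕ → Fin k × G × G)
    (j : ℕ) :
    ((wcross l s j).1, f (wcross l s j).2.1, f (wcross l s j).2.2) =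
      wcross l (fun j => ((s j).1, f (s j).2.1, f (s j).2.2)) j := by
  obtain ⟨i, ε⟩ := l
  by_cases h1 : j = i
  · subst h1
    cases ε
    · rw [wcross_left_false, wcross_left_false]
    · rw [wcross_left_true, wcross_left_true]
      by_cases h : (s j).1 = (s (j + 1)).1 <;> simp [under, mer, h]
  · by_cases h2 : j = i + 1
    · subst h2
      cases ε
      · rw [wcross_right_false, wcross_right_false]
        by_cases h : (s (i + 1)).1 = (s i).1 <;> simp [underInv, mer, h]
      · rw [wcross_right_true, wcross_right_true]
    · rw [wcross_of_ne _ _ j h1 h2, wcross_of_ne _ _ j h1 h2]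

theorem map_trace {H : Type*} [Group H] (f : G →* H) (w : List Letter)
    (s : ℕ → Fin k × G × G) (j : ℕ) :
    ((trace w s j).1, f (trace w s j).2.1, f (trace w s j).2.2) =
      trace w (fun j => ((s j).1, f (s j).2.1, f (s j).2.2)) j := by
  induction w generalizing s with
  | nil => rfl
  | cons l w ih =>
    show ((trace w (wcross l s) j).1, f (trace w (wcross l s) j).2.1,
      f (trace w (wcross l s) j).2.2) = trace w (wcross l _) j
    rw [ih]
    congr 1
    funext i
    exact map_wcross f l s i

theorem map_top {H : Type*} [Group H] (f : G →* H) (L : Link k) (x : Fin L.n → G) :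
    (fun j => ((L.top x j).1, f (L.top x j).2.1, f (L.top x j).2.2)) =
      L.top fun j => f (x j) := by
  funext j
  unfold Link.top
  simp only [map_one]
  by_cases h : j < L.n
  · rw [dif_pos h, dif_pos h]
  · rw [dif_neg h, dif_neg h, map_one]

theorem map_path {H : Type*} [Group H] (f : G →* H) (L : Link k) (x : Fin L.n → G) (j : ℕ) :
    f (path L x j) = path L (fun j => f (x j)) j := by
  unfold path
  have h := map_trace f L.word (L.top x) (perm L.word j)
  rw [map_top] at h
  exact congrArg (fun q : Fin k × H × H => q.2.2) h

theorem map_lam {H : Type*} [Group H] (f : G →* H) (L : Link k) (x : Fin L.n → G) (j m : ℕ) :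
    f (lam L x j m) = lam L (fun j => f (x j)) j m := by
  induction m with
  | zero => exact map_one f
  | succ m ih =>
    show f (path L x _ * lam L x j m) = path L _ _ * lam L _ j m
    rw [map_mul, map_path, ih]

/-- Representations: the meridians at the bottom are the meridians at the top. -/
def IsRep (L : Link k) (x : Fin L.n → G) : Prop :=
  ∀ j : Fin L.n, mer (trace L.word (L.top x) j) = x j

theorem isRep_iff (L : Link k) (x : Fin L.n → G) :
    IsRep L x ↔ ∀ r ∈ relators L, FreeGroup.lift x r = 1 := by
  have key : ∀ j : Fin L.n, FreeGroup.lift x (mer (trace L.word (L.top FreeGroup.of) j)) =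
      mer (trace L.word (L.top x) j) := by
    intro j
    rw [map_mer, map_trace, map_top]
    simp
  unfold IsRep relators
  constructor
  · rintro h _ ⟨j, rfl⟩
    rw [map_mul, map_inv, key, h j]
    simp
  · intro h j
    have := h _ ⟨j, rfl⟩
    rw [map_mul, map_inv, key] at this
    simp only [FreeGroup.lift_apply_of] at this
    exact mul_inv_eq_one.1 this

theorem isRep_hom (L : Link k) (ρ : LinkGroup L →* G) :
    IsRep L fun j => ρ (PresentedGroup.of j) := by
  rw [isRep_iff]
  intro r hr
  have e : FreeGroup.lift (fun j => ρ (PresentedGroup.of j)) = ρ.comp (PresentedGroup.mk _) := by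
    ext j
    simp [PresentedGroup.of]
  rw [e, MonoidHom.comp_apply]
  have : PresentedGroup.mk (relators L) r = 1 :=
    PresentedGroup.one_of_mem hr
  rw [this, map_one]

theorem map_longitude (L : Link k) (ρ : LinkGroup L →* G) (c : Fin k) :
    ρ (longitude L c) = lam L (fun j => ρ (PresentedGroup.of j)) (L.base c) (L.period c) :=
  map_lam ρ L _ _ _

end H23.FT
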