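import Pool.Agent.H23.FT.Run

namespace H23.FT

variable {k : ℕ}

theorem inv_pow_lt (w : List Letter) (n : ℕ) (hw : ∀ l ∈ w, l.1 + 1 < n) (m j : ℕ) (hj : j < n) :
    ((perm w)⁻¹ ^ m) j < n := by
  induction m generalizing j with
  | zero => simpa using hj
  | succ m ih =>
    rw [pow_succ, Equiv.Perm.mul_apply]
    exact ih _ ((perm_inv_lt_iff w n hw j).2 hj)

/-- **Key lemma.** In a nilpotent group a colouring is determined by its values on a set `J` of
strands which meets every cycle, and by its closing defects outside `J`. -/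
theorem key {G : Type*} [Group G] [hG : Group.IsNilpotent G] (w : List Letter) (n : ℕ)
    (hw : ∀ l ∈ w, l.1 + 1 < n) (J : ℕ → Prop)
    (hJ : ∀ j < n, ∃ m : ℕ, J (((perm w)⁻¹ ^ m) j)) (c : ℕ → Fin k) :
    ∀ (a : Fin k → G) (u u' : ℕ → G), (∀ j < n, J j → u j = u' j) →
      (∀ j < n, ¬ J j → (u j)⁻¹ * (act a w (fun j => (c j, u j)) j).2 =
        (u' j)⁻¹ * (act a w (fun j => (c j, u' j)) j).2) → ∀ j < n, u j = u' j := by
  refine Group.nilpotent_center_quotient_ind (P := fun G _ _ =>
    ∀ (a : Fin k → G) (u u' : ℕ → G), (∀ j < n, J j → u j = u' j) →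
      (∀ j < n, ¬ J j → (u j)⁻¹ * (act a w (fun j => (c j, u j)) j).2 =
        (u' j)⁻¹ * (act a w (fun j => (c j, u' j)) j).2) → ∀ j < n, u j = u' j) G ?_ ?_
  · intro G _ _ a u u' _ _ j _
    exact Subsingleton.elim _ _
  · intro G _ _ ih a u u' h1 h2
    set f := QuotientGroup.mk' (Subgroup.center G) with hf
    have hq : ∀ j < n, f (u j) = f (u' j) := by
      refine ih (fun i => f (a i)) (fun j => f (u j)) (fun j => f (u' j)) ?_ ?_
      · intro j hj hJj
        show f (u j) = f (u' j)
        rw [h1 j hj hJj]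
      · intro j hj hJj
        have e1 := congrArg Prod.snd (map_act f a w (fun j => (c j, u j)) j)
        have e2 := congrArg Prod.snd (map_act f a w (fun j => (c j, u' j)) j)
        simp only at e1 e2
        rw [← e1, ← e2, ← map_inv, ← map_inv, ← map_mul, ← map_mul, h2 j hj hJj]
    -- the central difference
    let z : ℕ → G := fun j => if j < n then (u j)⁻¹ * u' j else 1
    have hz : ∀ j, z j ∈ Subgroup.center G := by
      intro j
      simp only [z]
      split_ifs with hj
      · have := hq j hj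
        rw [hf, QuotientGroup.mk'_apply, QuotientGroup.mk'_apply, QuotientGroup.eq] at this
        exact this
      · exact one_mem _
    have hzc : ∀ j (g : G), z j * g = g * z j := fun j g =>
      ((Subgroup.mem_center_iff.1 (hz j)) g).symm
    have hu' : ∀ j < n, u' j = u j * z j := by
      intro j hj
      simp only [z, if_pos hj]
      group
    have hact : ∀ j < n, (act a w (fun j => (c j, u' j)) j).2 =
        (act a w (fun j => (c j, u j)) j).2 * z ((perm w)⁻¹ j) := by
      intro j hj
      have e1 : act a w (fun j => (c j, u' j)) j = act a w (fun j => (c j, u j * z j)) j := by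
        refine act_congr a w _ _ n hw ?_ j hj
        intro i hi
        rw [hu' i hi]
      have e2 := act_mul a w (fun j => (c j, u j)) z (fun j => hzc j _) j
      simp only at e2
      rw [e1, e2]
    have hstep : ∀ j < n, ¬ J j → z j = z ((perm w)⁻¹ j) := by
      intro j hj hJj
      have e := h2 j hj hJj
      rw [hact j hj, hu' j hj] at e
      set A := (act a w (fun j => (c j, u j)) j).2 with hA
      have e3 : (u j * z j)⁻¹ * (A * z ((perm w)⁻¹ j)) =
          (u j)⁻¹ * A * ((z j)⁻¹ * z ((perm w)⁻¹ j)) := by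
        have : (z j)⁻¹ * ((u j)⁻¹ * A) = ((u j)⁻¹ * A) * (z j)⁻¹ := by
          have := hzc j ((u j)⁻¹ * A)
          calc (z j)⁻¹ * ((u j)⁻¹ * A) = (z j)⁻¹ * (((u j)⁻¹ * A) * z j) * (z j)⁻¹ := by group
            _ = (z j)⁻¹ * (z j * ((u j)⁻¹ * A)) * (z j)⁻¹ := by rw [this]
            _ = ((u j)⁻¹ * A) * (z j)⁻¹ := by group
        calc (u j * z j)⁻¹ * (A * z ((perm w)⁻¹ j))
            = (z j)⁻¹ * ((u j)⁻¹ * A) * z ((perm w)⁻¹ j) := by group
          _ = _ := by rw [this]; group
      rw [e3] at e
      have e4 : (z j)⁻¹ * z ((perm w)⁻¹ j) = 1 := by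
        have := e.symm
        rwa [mul_eq_left] at this
      exact (inv_mul_eq_one.1 e4)
    have hfin : ∀ m : ℕ, ∀ j < n, J (((perm w)⁻¹ ^ m) j) → z j = 1 := by
      intro m
      induction m with
      | zero =>
        intro j hj hJj
        have : J j := by simpa using hJj
        simp only [z, if_pos hj]
        rw [h1 j hj this, inv_mul_cancel]
      | succ m ihm =>
        intro j hj hJj
        by_cases h : J j
        · simp only [z, if_pos hj]
          rw [h1 j hj h, inv_mul_cancel]
        · rw [hstep j hj h]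
          refine ihm _ ((perm_inv_lt_iff w n hw j).2 hj) ?_
          rwa [pow_succ, Equiv.Perm.mul_apply] at hJj
    intro j hj
    obtain ⟨m, hm⟩ := hJ j hj
    rw [hu' j hj, hfin m j hj hm, mul_one]

/-- A long knot has only constant colourings. -/
theorem long_knot {G : Type*} [Group G] [Group.IsNilpotent G] (a : Fin k → G) (κ : List Letter)
    (m : ℕ) (hκ : ∀ l ∈ κ, l.1 + 1 < m)
    (hknot : ∀ j < m, ∃ r : ℕ, (perm κ ^ r) 0 = j) (c : Fin k) (u : ℕ → G)
    (h : ∀ j < m, j ≠ 0 → (act a κ (fun j => (c, u j)) j).2 = u j) :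
    ∀ j < m, u j = u 0 := by
  refine key κ m hκ (fun j => j = 0) ?_ (fun _ => c) a u (fun _ => u 0) ?_ ?_
  · intro j hj
    obtain ⟨r, hr⟩ := hknot j hj
    refine ⟨r, ?_⟩
    rw [← hr, inv_pow, ← Equiv.Perm.mul_apply, inv_mul_cancel, Equiv.Perm.one_apply]
  · rintro j _ rfl
    rfl
  · intro j hj hj0
    rw [h j hj hj0, inv_mul_cancel]
    have e := act_const a κ m hκ (fun _ => (c, u 0)) (c, u 0) (fun _ _ => rfl) j hj
    rw [e, inv_mul_cancel]

end H23.FT
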