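import Pool.Agent.H23.FT.Group

/-!
# Lifted colourings and homomorphisms from the link group
-/

namespace H23.FT

variable {k : ℕ} {G : Type*} [Group G]

/-- The relation between the two kinds of states; `y` is the frame at the top. -/
def Rel (a : Fin k → G) (n : ℕ) (s : ℕ → Fin k × G) (W : ℕ → Fin k × G × G) (y : ℕ → G) : Prop :=
  ∀ j < n, (W j).1 = (s j).1 ∧ (s j).2 = (W j).2.2 * y j ∧
    (W j).2.1 = y j * a (s j).1 * (y j)⁻¹

theorem Rel.under {a : Fin k → G} {n : ℕ} {s : ℕ → Fin k × G} {W : ℕ → Fin k × G × G} {y : ℕ → G}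
    (h : Rel a n s W y) {i j : ℕ} (hi : i < n) (hj : j < n) :
    (FT.under (W i) (W j)).1 = (op a (s i) (s j)).1 ∧
      (op a (s i) (s j)).2 = (FT.under (W i) (W j)).2.2 * y j ∧
      (FT.under (W i) (W j)).2.1 = y j * a (op a (s i) (s j)).1 * (y j)⁻¹ := by
  obtain ⟨h1, h2, h3⟩ := h i hi
  obtain ⟨h4, h5, h6⟩ := h j hj
  refine ⟨h4, ?_, h6⟩
  unfold FT.under op mer
  simp only
  rw [h1, h4]
  by_cases hc : (s i).1 = (s j).1
  · rw [if_pos hc, if_pos hc, h2, h5, h3, h6, hc]
    group
  · rw [if_neg hc, if_neg hc, h2, h5, h3]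
    group

theorem Rel.underInv {a : Fin k → G} {n : ℕ} {s : ℕ → Fin k × G} {W : ℕ → Fin k × G × G}
    {y : ℕ → G} (h : Rel a n s W y) {i j : ℕ} (hi : i < n) (hj : j < n) :
    (FT.underInv (W i) (W j)).1 = (opInv a (s i) (s j)).1 ∧
      (opInv a (s i) (s j)).2 = (FT.underInv (W i) (W j)).2.2 * y j ∧
      (FT.underInv (W i) (W j)).2.1 = y j * a (opInv a (s i) (s j)).1 * (y j)⁻¹ := by
  obtain ⟨h1, h2, h3⟩ := h i hi
  obtain ⟨h4, h5, h6⟩ := h j hj
  refine ⟨h4, ?_, h6⟩
  unfold FT.underInv opInv mer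
  simp only
  rw [h1, h4]
  by_cases hc : (s i).1 = (s j).1
  · rw [if_pos hc, if_pos hc, h2, h5, h3, h6, hc]
    group
  · rw [if_neg hc, if_neg hc, h2, h5, h3]
    group

theorem Rel.cross {a : Fin k → G} {n : ℕ} {s : ℕ → Fin k × G} {W : ℕ → Fin k × G × G} {y : ℕ → G}
    (h : Rel a n s W y) (l : Letter) (hl : l.1 + 1 < n) :
    Rel a n (FT.cross a l s) (wcross l W) (fun j => y (Equiv.swap l.1 (l.1 + 1) j)) := by
  obtain ⟨i, ε⟩ := l
  simp only at hl
  intro j hj
  by_cases h1 : j = i
  · subst h1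
    simp only [Equiv.swap_apply_left]
    cases ε
    · rw [cross_left_false, wcross_left_false]
      exact h _ hl
    · rw [cross_left_true, wcross_left_true]
      exact h.under hj hl
  · by_cases h2 : j = i + 1
    · subst h2
      simp only [Equiv.swap_apply_right]
      cases ε
      · rw [cross_right_false, wcross_right_false]
        exact h.underInv hj (by omega)
      · rw [cross_right_true, wcross_right_true]
        exact h _ (by omega)
    · rw [cross_of_ne a _ _ j h1 h2, wcross_of_ne _ _ j h1 h2]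
      simp only [Equiv.swap_apply_of_ne_of_ne h1 h2]
      exact h j hj

theorem Rel.run {a : Fin k → G} {n : ℕ} (w : List Letter) (hw : ∀ l ∈ w, l.1 + 1 < n) :
    ∀ {s : ℕ → Fin k × G} {W : ℕ → Fin k × G × G} {y : ℕ → G}, Rel a n s W y →
      Rel a n (act a w s) (trace w W) (fun j => y ((perm w)⁻¹ j)) := by
  induction w with
  | nil =>
    intro s W y h j hj
    exact h j hj
  | cons l w ih =>
    intro s W y h
    have h1 := ih (fun l' hl' => hw l' (List.mem_cons_of_mem _ hl'))
      (h.cross l (hw l (List.mem_cons_self)))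
    intro j hj
    have h2 := h1 j hj
    have e : (perm (l :: w))⁻¹ j = Equiv.swap l.1 (l.1 + 1) ((perm w)⁻¹ j) := by
      rw [perm_cons, mul_inv_rev, Equiv.Perm.mul_apply, Equiv.swap_inv]
    simp only [e]
    exact h2

variable (L : Link k)

/-- The function on all of `ℕ`. -/
def ext (u : Fin L.n → G) : ℕ → G := fun j => if h : j < L.n then u ⟨j, h⟩ else 1

variable {L}

theorem ext_lt (u : Fin L.n → G) {j : ℕ} (h : j < L.n) : ext L u j = u ⟨j, h⟩ := dif_pos h

/-- The relation for a colouring `u` and its meridians. -/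
theorem rel_top (a : Fin k → G) (u x : Fin L.n → G)
    (h : ∀ j : Fin L.n, x j = u j * a (L.comp j) * (u j)⁻¹) :
    Rel a L.n (L.state u) (L.top x) (ext L u) := by
  intro j hj
  refine ⟨rfl, ?_, ?_⟩
  · show (if h : j < L.n then u ⟨j, h⟩ else 1) = 1 * ext L u j
    rw [one_mul]
    rfl
  · show (if h : j < L.n then x ⟨j, h⟩ else 1) = ext L u j * a (L.comp j) * (ext L u j)⁻¹
    rw [dif_pos hj, ext_lt u hj]
    exact h ⟨j, hj⟩

/-- Transport of a colouring in terms of the path elements. -/
theorem act_eq_path (a : Fin k → G) (u x : Fin L.n → G)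
    (h : ∀ j : Fin L.n, x j = u j * a (L.comp j) * (u j)⁻¹) (i : ℕ) (hi : i < L.n) :
    (act a L.word (L.state u) (perm L.word i)).2 = path L x i * ext L u i := by
  have hi' : perm L.word i < L.n := (perm_lt_iff _ _ L.lt _).2 hi
  have h1 := ((rel_top a u x h).run L.word L.lt (perm L.word i) hi').2.1
  rw [h1]
  have e : (perm L.word)⁻¹ (perm L.word i) = i := by
    rw [← Equiv.Perm.mul_apply, inv_mul_cancel, Equiv.Perm.one_apply]
  show (trace L.word (L.top x) (perm L.word i)).2.2 *
    ext L u ((perm L.word)⁻¹ (perm L.word i)) = _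
  rw [e]
  rfl

/-- The meridian at the bottom. -/
theorem mer_bottom (x : Fin L.n → G) (i : ℕ) (hi : i < L.n) :
    mer (trace L.word (L.top x) (perm L.word i)) = path L x i * x ⟨i, hi⟩ * (path L x i)⁻¹ := by
  unfold mer
  rw [(trace_top L.word (L.top x) i).2]
  have : (L.top x i).2.1 = x ⟨i, hi⟩ := by
    show (if h : i < L.n then x ⟨i, h⟩ else 1) = _
    rw [dif_pos hi]
  rw [this]
  rfl

theorem pow_lt (m j : ℕ) (hj : j < L.n) : (perm L.word ^ m) j < L.n := by
  induction m with
  | zero => simpa using hj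
  | succ m ih => rw [pow_succ', Equiv.Perm.mul_apply]; exact (perm_lt_iff _ _ L.lt _).2 ih

theorem pow_comp (m j : ℕ) (hj : j < L.n) : L.comp ((perm L.word ^ m) j) = L.comp j := by
  induction m with
  | zero => simp
  | succ m ih => rw [pow_succ', Equiv.Perm.mul_apply, L.closed _ (pow_lt m j hj), ih]

/-- The meridians along a component. -/
theorem meridian_pow {x : Fin L.n → G} (hx : IsRep L x) (j : ℕ) (hj : j < L.n) (m : ℕ) :
    x ⟨(perm L.word ^ m) j, pow_lt m j hj⟩ = lam L x j m * x ⟨j, hj⟩ * (lam L x j m)⁻¹ := by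
  induction m with
  | zero =>
    simp only [lam, pow_zero, Equiv.Perm.one_apply]
    group
  | succ m ih =>
    have h1 := hx ⟨(perm L.word ^ (m + 1)) j, pow_lt (m + 1) j hj⟩
    rw [← h1]
    have e : (perm L.word ^ (m + 1)) j = perm L.word ((perm L.word ^ m) j) := by
      rw [pow_succ', Equiv.Perm.mul_apply]
    simp only [e]
    rw [mer_bottom x _ (pow_lt m j hj), ih]
    show _ = path L x _ * lam L x j m * x ⟨j, hj⟩ * (path L x _ * lam L x j m)⁻¹
    group

theorem exists_pos (j : ℕ) (hj : j < L.n) : ∃ m : ℕ, (perm L.word ^ m) (L.base (L.comp j)) = j :=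
  L.conn _ (base_lt L _) j hj (comp_base L _)

open Classical in
/-- The first time when the component reaches the position `j`. -/
noncomputable def pos (L : Link k) (j : ℕ) : ℕ :=
  if h : ∃ m : ℕ, (perm L.word ^ m) (L.base (L.comp j)) = j then Nat.find h else 0

theorem pos_spec {j : ℕ} (hj : j < L.n) : (perm L.word ^ pos L j) (L.base (L.comp j)) = j := by
  classical
  unfold pos
  rw [dif_pos (exists_pos j hj)]
  exact Nat.find_spec (exists_pos j hj)

theorem pos_min {j : ℕ} (hj : j < L.n) {m : ℕ} (hm : (perm L.word ^ m) (L.base (L.comp j)) = j) :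
    pos L j ≤ m := by
  classical
  unfold pos
  rw [dif_pos (exists_pos j hj)]
  exact Nat.find_min' _ hm

theorem pos_base (c : Fin k) : pos L (L.base c) = 0 := by
  have := pos_min (L := L) (base_lt L c) (m := 0) (by rw [comp_base]; simp)
  omega

theorem pos_succ {i : ℕ} (hi : i < L.n) (hne : perm L.word i ≠ L.base (L.comp i)) :
    pos L (perm L.word i) = pos L i + 1 := by
  have hi' : perm L.word i < L.n := (perm_lt_iff _ _ L.lt _).2 hi
  have hc : L.comp (perm L.word i) = L.comp i := L.closed i hi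
  apply le_antisymm
  · refine pos_min hi' ?_
    rw [hc, pow_succ', Equiv.Perm.mul_apply, pos_spec hi]
  · have h1 := pos_spec (L := L) hi'
    rw [hc] at h1
    obtain ⟨m, hm⟩ : ∃ m, pos L (perm L.word i) = m + 1 := by
      refine Nat.exists_eq_succ_of_ne_zero ?_
      intro h0
      rw [h0, pow_zero, Equiv.Perm.one_apply] at h1
      exact hne h1.symm
    rw [hm, pow_succ', Equiv.Perm.mul_apply] at h1
    have h2 := (perm L.word).injective h1
    have := pos_min hi h2
    omega

theorem pos_period {i : ℕ} (hi : i < L.n) (heq : perm L.word i = L.base (L.comp i)) :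
    L.period (L.comp i) = pos L i + 1 := by
  unfold Link.period
  rw [Nat.find_eq_iff]
  refine ⟨⟨Nat.succ_pos _, ?_⟩, ?_⟩
  · rw [pow_succ', Equiv.Perm.mul_apply, pos_spec hi, heq]
  · rintro m hm ⟨hm0, h⟩
    obtain ⟨m, rfl⟩ := Nat.exists_eq_succ_of_ne_zero hm0.ne'
    rw [Nat.succ_eq_add_one, pow_succ', Equiv.Perm.mul_apply] at h
    have h2 := (perm L.word).injective (h.trans heq.symm)
    have := pos_min hi h2
    omega

/-- The colouring which belongs to a representation and elements at the base points. -/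
noncomputable def lift (L : Link k) (x : Fin L.n → G) (g : Fin k → G) : Fin L.n → G := fun j =>
  lam L x (L.base (L.comp j)) (pos L j) * g (L.comp j)

theorem lift_base (x : Fin L.n → G) (g : Fin k → G) (c : Fin k) :
    lift L x g ⟨L.base c, base_lt L c⟩ = g c := by
  show lam L x (L.base (L.comp (L.base c))) (pos L (L.base c)) * g (L.comp (L.base c)) = g c
  rw [pos_base, comp_base]
  simp [lam]

theorem lift_meridian {x : Fin L.n → G} (hx : IsRep L x) {a g : Fin k → G}
    (hg : ∀ c, x ⟨L.base c, base_lt L c⟩ = g c * a c * (g c)⁻¹) (j : Fin L.n) :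
    x j = lift L x g j * a (L.comp j) * (lift L x g j)⁻¹ := by
  have h1 := meridian_pow hx (L.base (L.comp j)) (base_lt L _) (pos L j)
  have h2 := pos_spec (L := L) j.2
  have e : (⟨(perm L.word ^ pos L j) (L.base (L.comp j)), pow_lt _ _ (base_lt L _)⟩ : Fin L.n) =
      j := Fin.ext h2
  rw [e, hg] at h1
  rw [h1]
  unfold lift
  group

theorem lift_isColouring {x : Fin L.n → G} (hx : IsRep L x) {a b g : Fin k → G}
    (hg : ∀ c, x ⟨L.base c, base_lt L c⟩ = g c * a c * (g c)⁻¹)
    (hl : ∀ c, lam L x (L.base c) (L.period c) = g c * b c * (g c)⁻¹) :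
    IsColouring L a b (lift L x g) := by
  intro j
  obtain ⟨i, hij⟩ : ∃ i, perm L.word i = j := ⟨(perm L.word)⁻¹ j, by simp⟩
  have hi : i < L.n := by
    rw [← perm_lt_iff L.word L.n L.lt, hij]
    exact j.2
  have hc : L.comp j = L.comp i := by rw [← hij]; exact L.closed i hi
  rw [← hij, act_eq_path a _ x (lift_meridian hx hg) i hi, ext_lt _ hi]
  have e1 : path L x i * lift L x g ⟨i, hi⟩ =
      lam L x (L.base (L.comp i)) (pos L i + 1) * g (L.comp i) := by
    show path L x i * (lam L x (L.base (L.comp i)) (pos L i) * g (L.comp i)) =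
      path L x ((perm L.word ^ pos L i) (L.base (L.comp i))) *
        lam L x (L.base (L.comp i)) (pos L i) * g (L.comp i)
    rw [pos_spec hi]
    group
  rw [e1]
  by_cases hb : perm L.word i = L.base (L.comp i)
  · have hj : j = ⟨L.base (L.comp i), base_lt L _⟩ := Fin.ext (hij.symm.trans hb)
    rw [if_pos (by rw [L.closed i hi]; exact hb), L.closed i hi, ← pos_period hi hb, hl, hj,
      lift_base]
    group
  · rw [if_neg (by rw [L.closed i hi]; exact hb), mul_one]
    show _ = lam L x (L.base (L.comp j)) (pos L j) * g (L.comp j)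
    rw [hc, ← pos_succ hi hb, hij]

/-- Frames along a component, for a colouring. -/
theorem colouring_lam {a b : Fin k → G} {u : Fin L.n → G} (hu : IsColouring L a b u)
    {x : Fin L.n → G} (hx : ∀ j : Fin L.n, x j = u j * a (L.comp j) * (u j)⁻¹) (c : Fin k)
    (m : ℕ) (hm : ∀ i < m, (perm L.word ^ (i + 1)) (L.base c) ≠ L.base c) :
    lam L x (L.base c) m * u ⟨L.base c, base_lt L c⟩ =
      u ⟨(perm L.word ^ m) (L.base c), pow_lt m _ (base_lt L c)⟩ := by
  induction m with
  | zero => simp [lam]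
  | succ m ih =>
    have h1 := ih fun i hi => hm i (by omega)
    have h2 := act_eq_path a u x hx _ (pow_lt m _ (base_lt L c))
    rw [ext_lt _ (pow_lt m _ (base_lt L c)), ← h1] at h2
    have h3 := hu ⟨(perm L.word ^ (m + 1)) (L.base c), pow_lt (m + 1) _ (base_lt L c)⟩
    simp only at h3
    rw [pow_comp _ _ (base_lt L c), comp_base, if_neg (hm m (Nat.lt_succ_self m)), mul_one] at h3
    rw [← h3, pow_succ', Equiv.Perm.mul_apply, h2]
    show path L x _ * lam L x (L.base c) m * _ = _
    group

theorem colouring_period {a b : Fin k → G} {u : Fin L.n → G} (hu : IsColouring L a b u)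
    {x : Fin L.n → G} (hx : ∀ j : Fin L.n, x j = u j * a (L.comp j) * (u j)⁻¹) (c : Fin k) :
    lam L x (L.base c) (L.period c) * u ⟨L.base c, base_lt L c⟩ =
      u ⟨L.base c, base_lt L c⟩ * b c := by
  obtain ⟨hp, hr⟩ : 0 < L.period c ∧ (perm L.word ^ L.period c) (L.base c) = L.base c :=
    Nat.find_spec (exists_return L c)
  have hmin : ∀ i, i + 1 < L.period c → (perm L.word ^ (i + 1)) (L.base c) ≠ L.base c := by
    intro i hi h
    exact Nat.find_min (exists_return L c) hi ⟨Nat.succ_pos i, h⟩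
  obtain ⟨m, hm⟩ := Nat.exists_eq_succ_of_ne_zero hp.ne'
  rw [hm, Nat.succ_eq_add_one] at hr ⊢
  have h1 := colouring_lam hu hx c m fun i hi => hmin i (by omega)
  have h2 := act_eq_path a u x hx _ (pow_lt m _ (base_lt L c))
  rw [ext_lt _ (pow_lt m _ (base_lt L c)), ← h1, ← Equiv.Perm.mul_apply, ← pow_succ', hr] at h2
  have h3 := hu ⟨L.base c, base_lt L c⟩
  simp only at h3
  rw [comp_base, if_pos rfl] at h3
  rw [← h3, h2]
  show path L x _ * lam L x (L.base c) m * _ = _
  group

theorem colouring_isRep {a b : Fin k → G} (hab : ∀ c, Commute (b c) (a c)) {u : Fin L.n → G}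
    (hu : IsColouring L a b u) : IsRep L fun j => u j * a (L.comp j) * (u j)⁻¹ := by
  intro j
  obtain ⟨i, hij⟩ : ∃ i, perm L.word i = j := ⟨(perm L.word)⁻¹ j, by simp⟩
  have hi : i < L.n := by
    rw [← perm_lt_iff L.word L.n L.lt, hij]
    exact j.2
  have hc : L.comp j = L.comp i := by rw [← hij]; exact L.closed i hi
  rw [← hij, mer_bottom _ i hi]
  have h2 := act_eq_path a u (fun j => u j * a (L.comp j) * (u j)⁻¹) (fun _ => rfl) i hi
  rw [hij, hu j, ext_lt _ hi] at h2
  set p := path L (fun j => u j * a (L.comp j) * (u j)⁻¹) i with hp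
  have h3 : p * (u ⟨i, hi⟩ * a (L.comp i) * (u ⟨i, hi⟩)⁻¹) * p⁻¹ =
      (p * u ⟨i, hi⟩) * a (L.comp i) * (p * u ⟨i, hi⟩)⁻¹ := by group
  show p * (u ⟨i, hi⟩ * a (L.comp i) * (u ⟨i, hi⟩)⁻¹) * p⁻¹ = u j * a (L.comp j) * (u j)⁻¹
  rw [h3, ← h2, hc]
  have ht : (if (j : ℕ) = L.base (L.comp i) then b (L.comp i) else 1) * a (L.comp i) *
      (if (j : ℕ) = L.base (L.comp i) then b (L.comp i) else 1)⁻¹ = a (L.comp i) := by
    split_ifs
    · rw [(hab _).eq, mul_inv_cancel_right]
    · group
  calc u j * (if (j : ℕ) = L.base (L.comp i) then b (L.comp i) else 1) * a (L.comp i) *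
        (u j * (if (j : ℕ) = L.base (L.comp i) then b (L.comp i) else 1))⁻¹
      = u j * ((if (j : ℕ) = L.base (L.comp i) then b (L.comp i) else 1) * a (L.comp i) *
        (if (j : ℕ) = L.base (L.comp i) then b (L.comp i) else 1)⁻¹) * (u j)⁻¹ := by group
    _ = _ := by rw [ht]

theorem lift_colouring {a b : Fin k → G} {u : Fin L.n → G} (hu : IsColouring L a b u)
    {x : Fin L.n → G} (hx : ∀ j : Fin L.n, x j = u j * a (L.comp j) * (u j)⁻¹) :
    lift L x (fun c => u ⟨L.base c, base_lt L c⟩) = u := by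
  funext j
  have h1 := colouring_lam hu hx (L.comp j) (pos L j) ?_
  · have e : (⟨(perm L.word ^ pos L j) (L.base (L.comp j)), pow_lt _ _ (base_lt L _)⟩ :
        Fin L.n) = j := Fin.ext (pos_spec j.2)
    rw [e] at h1
    exact h1
  · intro i hi h
    have h2 := pos_spec (L := L) j.2
    obtain ⟨r, hr⟩ := Nat.exists_eq_add_of_lt hi
    have h3 : (perm L.word ^ r) (L.base (L.comp j)) = j := by
      rw [← h, ← Equiv.Perm.mul_apply, ← pow_add, show r + (i + 1) = pos L j by omega]
      exact h2
    have := pos_min j.2 h3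
    omega

/-- **Colourings and homomorphisms.** -/
theorem colourings_eq_peripheralCount (L : Link k) (a b : Fin k → G)
    (hab : ∀ c, Commute (b c) (a c)) : colourings L a b = peripheralCount L a b := by
  unfold colourings peripheralCount
  have hF : ∀ q : (LinkGroup L →* G) × (Fin k → G),
      (∀ c, q.1 (meridian L c) = q.2 c * a c * (q.2 c)⁻¹ ∧
        q.1 (longitude L c) = q.2 c * b c * (q.2 c)⁻¹) →
      IsColouring L a b (lift L (fun j => q.1 (PresentedGroup.of j)) q.2) := by
    intro q hq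
    refine lift_isColouring (isRep_hom L q.1) (fun c => (hq c).1) fun c => ?_
    rw [← map_longitude]
    exact (hq c).2
  symm
  refine Nat.card_eq_of_bijective (fun q => ⟨lift L (fun j => q.1.1 (PresentedGroup.of j)) q.1.2,
    hF q.1 q.2⟩) ⟨?_, ?_⟩
  · rintro ⟨⟨ρ, g⟩, hq⟩ ⟨⟨ρ', g'⟩, hq'⟩ h
    have h0 : lift L (fun j => ρ (PresentedGroup.of j)) g =
      lift L (fun j => ρ' (PresentedGroup.of j)) g' := congrArg Subtype.val h
    have hg : g = g' := by
      funext c
      have := congrFun h0 ⟨L.base c, base_lt L c⟩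
      rwa [lift_base, lift_base] at this
    have hρ : ρ = ρ' := by
      refine PresentedGroup.ext fun j => ?_
      have e1 := lift_meridian (isRep_hom L ρ) (fun c => (hq c).1) j
      have e2 := lift_meridian (isRep_hom L ρ') (fun c => (hq' c).1) j
      simp only at e1 e2
      rw [e1, e2, h0]
    subst hg
    subst hρ
    rfl
  · rintro ⟨u, hu⟩
    have hrep := colouring_isRep hab hu
    have hrel := (isRep_iff L _).1 hrep
    let ρ : LinkGroup L →* G := PresentedGroup.toGroup hrel
    have hρ : ∀ j, ρ (PresentedGroup.of j) = u j * a (L.comp j) * (u j)⁻¹ := fun j =>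
      PresentedGroup.toGroup.of hrel
    have hρ' : (fun j => ρ (PresentedGroup.of j)) = fun j : Fin L.n =>
      u j * a (L.comp j) * (u j)⁻¹ := funext hρ
    refine ⟨⟨(ρ, fun c => u ⟨L.base c, base_lt L c⟩), fun c => ⟨?_, ?_⟩⟩, ?_⟩
    · show ρ (PresentedGroup.of ⟨L.base c, base_lt L c⟩) = _
      rw [hρ]
      simp only [comp_base]
    · show ρ (longitude L c) = _
      rw [map_longitude, hρ']
      have := colouring_period hu (fun _ => rfl) c
      rw [← this]
      group
    · have e : lift L (fun j => ρ (PresentedGroup.of j)) (fun c => u ⟨L.base c, base_lt L c⟩) =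
          u := by
        rw [hρ']
        exact lift_colouring hu fun _ => rfl
      exact Subtype.ext e

/-- The longitude commutes with the meridian. -/
theorem peripheral_commute (L : Link k) (ρ : LinkGroup L →* G) (c : Fin k) :
    Commute (ρ (longitude L c)) (ρ (meridian L c)) := by
  have h := meridian_pow (isRep_hom L ρ) (L.base c) (base_lt L c) (L.period c)
  have hr : (perm L.word ^ L.period c) (L.base c) = L.base c :=
    (Nat.find_spec (exists_return L c)).2
  have e : (⟨(perm L.word ^ L.period c) (L.base c), pow_lt _ _ (base_lt L c)⟩ : Fin L.n) =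
      ⟨L.base c, base_lt L c⟩ := Fin.ext hr
  rw [e, ← map_longitude] at h
  show ρ (longitude L c) * ρ (meridian L c) = ρ (meridian L c) * ρ (longitude L c)
  exact (eq_mul_inv_iff_mul_eq.1 h).symm

theorem peripheralCount_eq_zero (L : Link k) (a b : Fin k → G)
    (hab : ¬ ∀ c, Commute (b c) (a c)) : peripheralCount L a b = 0 := by
  unfold peripheralCount
  rw [Nat.card_eq_zero]
  left
  refine ⟨?_⟩
  rintro ⟨⟨ρ, g⟩, hq⟩
  apply hab
  intro c
  have h := peripheral_commute L ρ c
  rw [(hq c).1, (hq c).2] at h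
  have h2 := h.eq
  show b c * a c = a c * b c
  have e1 : g c * b c * (g c)⁻¹ * (g c * a c * (g c)⁻¹) = g c * (b c * a c) * (g c)⁻¹ := by group
  have e2 : g c * a c * (g c)⁻¹ * (g c * b c * (g c)⁻¹) = g c * (a c * b c) * (g c)⁻¹ := by group
  rw [e1, e2] at h2
  exact mul_left_cancel (mul_right_cancel h2)

end H23.FT
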