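import Pool.Agent.H23.FT.Count
import Pool.Agent.H23.FT.Pairs

/-!
# From finite type invariants to all finite nilpotent groups
-/

namespace H23.FT

variable {k : ℕ}

theorem map_act_state {G H : Type*} [Group G] [Group H] (f : G →* H) (a : Fin k → G)
    (L : Link k) (u : Fin L.n → G) (j : ℕ) :
    f (act a L.word (L.state u) j).2 =
      (act (fun c => f (a c)) L.word (L.state fun j => f (u j)) j).2 := by
  have h := congrArg Prod.snd (map_act f a L.word (L.state u) j)
  simp only at h
  rw [h]
  have e : (fun j => ((L.state u j).1, f (L.state u j).2)) = L.state fun j => f (u j) := by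
    funext j
    unfold Link.state
    by_cases hj : j < L.n
    · rw [dif_pos hj, dif_pos hj]
    · rw [dif_neg hj, dif_neg hj, map_one]
  rw [e]

theorem isColouring_map {G H : Type*} [Group G] [Group H] (f : G →* H) (L : Link k)
    (a b : Fin k → G) (u : Fin L.n → G) (h : IsColouring L a b u) :
    IsColouring L (fun c => f (a c)) (fun c => f (b c)) fun j => f (u j) := by
  intro j
  rw [← map_act_state, h j, map_mul]
  congr 1
  split_ifs
  · rfl
  · exact map_one f

theorem colourings_equiv {G H : Type*} [Group G] [Group H] (e : G ≃* H) (L : Link k)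
    (a b : Fin k → G) :
    colourings L a b = colourings L (fun c => e (a c)) (fun c => e (b c)) := by
  refine Nat.card_congr ⟨fun u => ⟨fun j => e (u.1 j), isColouring_map e.toMonoidHom L a b _ u.2⟩,
    fun u => ⟨fun j => e.symm (u.1 j), ?_⟩, ?_, ?_⟩
  · have h := isColouring_map e.symm.toMonoidHom L _ _ _ u.2
    have e1 : (fun c => e.symm.toMonoidHom (e (a c))) = a := by
      funext c
      exact e.symm_apply_apply (a c)
    have e2 : (fun c => e.symm.toMonoidHom (e (b c))) = b := by
      funext c
      exact e.symm_apply_apply (b c)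
    rw [e1, e2] at h
    exact h
  · rintro ⟨u, hu⟩
    refine Subtype.ext (funext fun j => ?_)
    exact e.symm_apply_apply (u j)
  · rintro ⟨u, hu⟩
    refine Subtype.ext (funext fun j => ?_)
    exact e.apply_symm_apply (u j)

theorem isColouring_pi {ι : Type*} {H : ι → Type*} [∀ i, Group (H i)] (L : Link k)
    (a b : Fin k → ∀ i, H i) (u : Fin L.n → ∀ i, H i) :
    IsColouring L a b u ↔
      ∀ i, IsColouring L (fun c => a c i) (fun c => b c i) fun j => u j i := by
  constructor
  · intro h i
    exact isColouring_map (Pi.evalMonoidHom H i) L a b u h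
  · intro h j
    funext i
    have h1 := h i j
    have h2 := map_act_state (Pi.evalMonoidHom H i) a L u j
    have h3 : (act a L.word (L.state u) j).2 i =
        (act (fun c => a c i) L.word (L.state fun j => u j i) j).2 := h2
    rw [h3, h1, Pi.mul_apply]
    congr 1
    split_ifs <;> rfl

theorem colourings_pi {ι : Type*} [Fintype ι] {H : ι → Type*} [∀ i, Group (H i)] (L : Link k)
    (a b : Fin k → ∀ i, H i) :
    colourings L a b = ∏ i, colourings L (fun c => a c i) (fun c => b c i) := by
  unfold colourings
  rw [← Nat.card_pi]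
  refine Nat.card_congr ⟨fun u i => ⟨fun j => u.1 j i, (isColouring_pi L a b u.1).1 u.2 i⟩,
    fun v => ⟨fun j i => (v i).1 j, (isColouring_pi L a b _).2 fun i => (v i).2⟩, ?_, ?_⟩
  · rintro ⟨u, hu⟩
    rfl
  · intro v
    rfl

/-- `L` and `L'` are not separated by the finite type invariants with values in finite cyclic
groups of prime power order which are well-defined up to PL isotopy. -/
def NotSeparated (L L' : Link k) : Prop :=
  ∀ p e : ℕ, p.Prime → ∀ v : Link k → ZMod (p ^ e), FiniteType v → PLInvariant v → v L = v L'

theorem colourings_eq_of_pgroup {L L' : Link k} (h : NotSeparated L L') {G : Type*} [Group G]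
    {p : ℕ} [hp : Fact p.Prime] [Finite G] (hG : IsPGroup p G) (a b : Fin k → G)
    (hab : ∀ c, Commute (b c) (a c)) : colourings L a b = colourings L' a b := by
  have : Group.IsNilpotent G := hG.isNilpotent
  set e := max (colourings L a b) (colourings L' a b) with he
  have h1 := h p e hp.out (fun M : Link k => (colourings M a b : ZMod (p ^ e)))
    (colourings_finiteType hG a b e)
    (fun M M' hM => by
      show (colourings M a b : ZMod (p ^ e)) = (colourings M' a b : ZMod (p ^ e))
      rw [colourings_step hM a b hab])
  rw [ZMod.natCast_eq_natCast_iff'] at h1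
  have hlt : e < p ^ e := Nat.lt_pow_self hp.out.one_lt
  rwa [Nat.mod_eq_of_lt ((le_max_left _ _).trans_lt hlt),
    Nat.mod_eq_of_lt ((le_max_right _ _).trans_lt hlt)] at h1

theorem colourings_eq_of_nilpotent {L L' : Link k} (h : NotSeparated L L') {G : Type*} [Group G]
    [Finite G] [hG : Group.IsNilpotent G] (a b : Fin k → G)
    (hab : ∀ c, Commute (b c) (a c)) : colourings L a b = colourings L' a b := by
  classical
  obtain ⟨e⟩ := ((Group.isNilpotent_of_finite_tfae (G := G)).out 0 4).1 hG
  rw [colourings_equiv e.symm L a b, colourings_equiv e.symm L' a b]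
  have hab' : ∀ c, Commute (e.symm (b c)) (e.symm (a c)) := fun c => (hab c).map e.symm
  rw [colourings_pi, colourings_pi]
  refine Finset.prod_congr rfl fun p _ => ?_
  have hp : Fact (Nat.Prime (p : ℕ)) := ⟨Nat.prime_of_mem_primeFactors p.2⟩
  haveI := Fintype.ofFinite (Sylow (p : ℕ) G)
  rw [colourings_pi, colourings_pi]
  refine Finset.prod_congr rfl fun P _ => ?_
  refine colourings_eq_of_pgroup h (p := (p : ℕ)) P.isPGroup' _ _ fun c => ?_
  exact ((hab' c).map (Pi.evalMonoidHom _ p)).map (Pi.evalMonoidHom _ P)

/-- The numbers of homomorphisms to finite nilpotent groups with given peripheral values agree. -/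
theorem peripheralCount_eq {L L' : Link k} (h : NotSeparated L L') {G : Type*} [Group G]
    [Finite G] [Group.IsNilpotent G] (a b : Fin k → G) :
    peripheralCount L a b = peripheralCount L' a b := by
  by_cases hab : ∀ c, Commute (b c) (a c)
  · rw [← colourings_eq_peripheralCount L a b hab, ← colourings_eq_peripheralCount L' a b hab]
    exact colourings_eq_of_nilpotent h a b hab
  · rw [peripheralCount_eq_zero L a b hab, peripheralCount_eq_zero L' a b hab]

theorem finite_hom (L : Link k) (G : Type*) [Group G] [Finite G] : Finite (LinkGroup L →* G) := by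
  refine Finite.of_injective (fun (ρ : LinkGroup L →* G) (j : Fin L.n) =>
    ρ (PresentedGroup.of j)) ?_
  intro ρ ρ' hρ
  exact PresentedGroup.ext fun j => congrFun hρ j

theorem exists_hom {L L' : Link k} (h : NotSeparated L L') {G : Type*} [Group G]
    [Finite G] [Group.IsNilpotent G] (ρ : LinkGroup L →* G) :
    ∃ (ρ' : LinkGroup L' →* G) (g : Fin k → G), ∀ c,
      ρ' (meridian L' c) = g c * ρ (meridian L c) * (g c)⁻¹ ∧
      ρ' (longitude L' c) = g c * ρ (longitude L c) * (g c)⁻¹ := by
  have h1 := peripheralCount_eq h (fun c => ρ (meridian L c)) (fun c => ρ (longitude L c))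
  haveI := finite_hom L G
  have h2 : 0 < peripheralCount L (fun c => ρ (meridian L c)) (fun c => ρ (longitude L c)) := by
    unfold peripheralCount
    rw [Nat.card_pos_iff]
    refine ⟨⟨⟨(ρ, 1), fun c => ?_⟩⟩, inferInstance⟩
    simp
  rw [h1] at h2
  unfold peripheralCount at h2
  obtain ⟨⟨⟨ρ', g⟩, hq⟩⟩ := (Nat.card_pos_iff.1 h2).1
  exact ⟨ρ', g, hq⟩

/-- The longitudes of the trivial link are trivial. -/
theorem longitude_trivial (L : Link k) (hL : L.word = []) (c : Fin k) : longitude L c = 1 := by
  have h : ∀ j, path L (PresentedGroup.of : Fin L.n → LinkGroup L) j = 1 := by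
    intro j
    unfold path
    rw [hL]
    rfl
  have h2 : ∀ m, lam L (PresentedGroup.of : Fin L.n → LinkGroup L) (L.base c) m = 1 := by
    intro m
    induction m with
    | zero => rfl
    | succ m ih =>
      show path L _ _ * lam L _ _ m = 1
      rw [h, ih, one_mul]
  exact h2 _

end H23.FT
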