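import Pool.Agent.H23.FT.Key

namespace H23.FT

variable {k : ℕ} {G : Type*} [Group G]

/-- Colourings, as functions on `ℕ`, with general closing factors `t`. -/
def ColSet (n : ℕ) (w : List Letter) (c : ℕ → Fin k) (a : Fin k → G) (t : ℕ → G) :
    Set (ℕ → G) :=
  {u | (∀ j, n ≤ j → u j = 1) ∧ ∀ j < n, (act a w (fun i => (c i, u i)) j).2 = u j * t j}

/-- The closing factors for base points `B`. -/
def tau (c : ℕ → Fin k) (b : Fin k → G) (B : Fin k → ℕ) (j : ℕ) : G :=
  if j = B (c j) then b (c j) else 1

theorem colourings_eq (L : Link k) (a b : Fin k → G) :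
    colourings L a b = Nat.card (ColSet L.n L.word L.comp a (tau L.comp b L.base)) := by
  unfold colourings
  refine Nat.card_congr ⟨fun u => ⟨fun j => if h : j < L.n then u.1 ⟨j, h⟩ else 1, ?_, ?_⟩,
    fun u => ⟨fun j => u.1 j, ?_⟩, ?_, ?_⟩
  · intro j hj
    show (if h : j < L.n then u.1 ⟨j, h⟩ else 1) = 1
    rw [dif_neg (not_lt.2 hj)]
  · intro j hj
    have h := u.2 ⟨j, hj⟩
    show _ = (if h : j < L.n then u.1 ⟨j, h⟩ else 1) * _
    rw [dif_pos hj]
    exact h
  · intro j
    have h := u.2.2 j j.2
    have e : L.state (fun j : Fin L.n => u.1 j) = fun i => (L.comp i, u.1 i) := by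
      funext i
      unfold Link.state
      by_cases hi : i < L.n
      · rw [dif_pos hi]
      · rw [dif_neg hi, u.2.1 i (not_lt.1 hi)]
    rw [e]
    exact h
  · rintro ⟨u, hu⟩
    refine Subtype.ext (funext fun j => ?_)
    simp
  · rintro ⟨u, hu⟩
    refine Subtype.ext (funext fun j => ?_)
    simp only
    split_ifs with hj
    · rfl
    · exact (hu.1 j (not_lt.1 hj)).symm

theorem ColSet_congr (n : ℕ) (w w' : List Letter) (hw : ∀ l ∈ w, l.1 + 1 < n)
    (c c' : ℕ → Fin k) (a : Fin k → G) (t t' : ℕ → G) (hc : ∀ j < n, c' j = c j)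
    (ht : ∀ j < n, t' j = t j) (hww : ∀ s : ℕ → Fin k × G, act a w' s = act a w s) :
    ColSet n w' c' a t' = ColSet n w c a t := by
  ext u
  have key : ∀ j < n, (act a w' (fun i => (c' i, u i)) j).2 =
      (act a w (fun i => (c i, u i)) j).2 := by
    intro j hj
    rw [hww]
    rw [act_congr a w (fun i => (c' i, u i)) (fun i => (c i, u i)) n hw
      (fun i hi => by rw [hc i hi]) j hj]
  constructor
  · rintro ⟨h1, h2⟩
    refine ⟨h1, fun j hj => ?_⟩
    rw [← key j hj, h2 j hj, ht j hj]
  · rintro ⟨h1, h2⟩
    refine ⟨h1, fun j hj => ?_⟩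
    rw [key j hj, h2 j hj, ht j hj]

theorem base_lt (L : Link k) (c : Fin k) : L.base c < L.n := (Nat.find_spec (L.surj c)).1

theorem comp_base (L : Link k) (c : Fin k) : L.comp (L.base c) = c :=
  (Nat.find_spec (L.surj c)).2

theorem base_eq_of (L L' : Link k) (hn : L.n ≤ L'.n) (hc : ∀ j < L.n, L'.comp j = L.comp j)
    (c : Fin k) : L'.base c = L.base c := by
  unfold Link.base
  rw [Nat.find_eq_iff]
  refine ⟨⟨(base_lt L c).trans_le hn, ?_⟩, ?_⟩
  · show L'.comp (L.base c) = c
    rw [hc _ (base_lt L c), comp_base]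
  · rintro m hm ⟨_, h2⟩
    have hmn : m < L.n := hm.trans (base_lt L c)
    rw [hc m hmn] at h2
    exact Nat.find_min (L.surj c) hm ⟨hmn, h2⟩

/-! ### Braid relations -/

theorem cross_cancel (a : Fin k → G) (i : ℕ) (ε : Bool) (s : ℕ → Fin k × G) :
    cross a (i, !ε) (cross a (i, ε) s) = s := by
  funext j
  by_cases h1 : j = i
  · subst h1
    cases ε
    · rw [Bool.not_false, cross_left_true, cross_left_false, cross_right_false, op_opInv]
    · rw [Bool.not_true, cross_left_false, cross_right_true]
  · by_cases h2 : j = i + 1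
    · subst h2
      cases ε
      · rw [Bool.not_false, cross_right_true, cross_left_false]
      · rw [Bool.not_true, cross_right_false, cross_left_true, cross_right_true, opInv_op]
    · rw [cross_of_ne a _ _ j h1 h2, cross_of_ne a _ _ j h1 h2]

theorem cross_far (a : Fin k → G) (i j : ℕ) (ε δ : Bool) (h : i + 1 < j) (s : ℕ → Fin k × G) :
    cross a (j, δ) (cross a (i, ε) s) = cross a (i, ε) (cross a (j, δ) s) := by
  funext x
  have e1 : cross a (i, ε) s j = s j := cross_of_ne a _ _ _ (by simp only; omega)
    (by simp only; omega)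
  have e2 : cross a (i, ε) s (j + 1) = s (j + 1) := cross_of_ne a _ _ _ (by simp only; omega)
    (by simp only; omega)
  have e3 : cross a (j, δ) s i = s i := cross_of_ne a _ _ _ (by simp only; omega)
    (by simp only; omega)
  have e4 : cross a (j, δ) s (i + 1) = s (i + 1) := cross_of_ne a _ _ _ (by simp only; omega)
    (by simp only; omega)
  by_cases h1 : x = i
  · subst h1
    rw [cross_of_ne a (j, δ) _ _ (by simp only; omega) (by simp only; omega)]
    unfold cross at *
    simp only [if_true] at *
    rw [e3, e4]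
  by_cases h2 : x = i + 1
  · subst h2
    rw [cross_of_ne a (j, δ) _ _ (by simp only; omega) (by simp only; omega)]
    conv_lhs => unfold cross
    conv_rhs => rw [show cross a (i, ε) (cross a (j, δ) s) (i + 1) =
      if ε then cross a (j, δ) s i else opInv a (cross a (j, δ) s (i + 1)) (cross a (j, δ) s i)
      from by unfold cross; simp]
    rw [e3, e4]
    simp
  by_cases h3 : x = j
  · subst h3
    rw [cross_of_ne a (i, ε) _ _ (by simp only; omega) (by simp only; omega)]
    conv_lhs => rw [show cross a (x, δ) (cross a (i, ε) s) x =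
      if δ then op a (cross a (i, ε) s x) (cross a (i, ε) s (x + 1))
        else cross a (i, ε) s (x + 1) from by unfold cross; simp]
    rw [e1, e2]
    simp [cross]
  by_cases h4 : x = j + 1
  · subst h4
    rw [cross_of_ne a (i, ε) _ _ (by simp only; omega) (by simp only; omega)]
    conv_lhs => rw [show cross a (j, δ) (cross a (i, ε) s) (j + 1) =
      if δ then cross a (i, ε) s j
        else opInv a (cross a (i, ε) s (j + 1)) (cross a (i, ε) s j) from by
          unfold cross; simp]
    rw [e1, e2]
    simp [cross]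
  rw [cross_of_ne a (j, δ) _ _ h3 h4, cross_of_ne a (i, ε) _ _ h1 h2,
    cross_of_ne a (i, ε) _ _ h1 h2, cross_of_ne a (j, δ) _ _ h3 h4]

theorem cross_braid (a : Fin k → G) (i : ℕ) (s : ℕ → Fin k × G) :
    cross a (i, true) (cross a (i + 1, true) (cross a (i, true) s)) =
      cross a (i + 1, true) (cross a (i, true) (cross a (i + 1, true) s)) := by
  funext x
  have n1 : ∀ r : ℕ → Fin k × G, cross a (i + 1, true) r i = r i := fun r =>
    cross_of_ne a _ _ _ (by simp only; omega) (by simp only; omega)
  have n2 : ∀ r : ℕ → Fin k × G, cross a (i, true) r (i + 1 + 1) = r (i + 1 + 1) := fun r =>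
    cross_of_ne a _ _ _ (by simp only; omega) (by simp only; omega)
  have l1 := fun r => cross_left_true a i r
  have l2 := fun r => cross_left_true a (i + 1) r
  have r1 := fun r => cross_right_true a i r
  have r2 := fun r => cross_right_true a (i + 1) r
  by_cases h1 : x = i
  · subst h1
    simp only [l1, l2, r1, n1, n2]
    exact (op_op a _ _ _).symm
  by_cases h2 : x = i + 1
  · subst h2
    simp only [l1, l2, r1, r2, n1, n2]
  by_cases h3 : x = i + 1 + 1
  · subst h3
    simp only [l1, l2, r1, r2, n1, n2]
  rw [cross_of_ne a (i, true) _ _ h1 h2, cross_of_ne a (i + 1, true) _ _ h2 h3,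
    cross_of_ne a (i, true) _ _ h1 h2, cross_of_ne a (i + 1, true) _ _ h2 h3,
    cross_of_ne a (i, true) _ _ h1 h2, cross_of_ne a (i + 1, true) _ _ h2 h3]

theorem act_braidStep (a : Fin k → G) {w w' : List Letter} (h : BraidStep w w')
    (s : ℕ → Fin k × G) : act a w' s = act a w s := by
  cases h with
  | cancel w₁ w₂ i ε =>
    rw [act_append, act_append, act_cons, act_cons, cross_cancel]
  | far w₁ w₂ i j ε δ h =>
    rw [act_append, act_append, act_cons, act_cons, act_cons, act_cons, cross_far a i j ε δ h]
  | braid w₁ w₂ i =>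
    rw [act_append, act_append, act_cons, act_cons, act_cons, act_cons, act_cons, act_cons,
      cross_braid]

/-! ### Change of the base points -/

theorem perm_inv_comp (L : Link k) (j : ℕ) (hj : j < L.n) :
    L.comp ((perm L.word)⁻¹ j) = L.comp j := by
  have h := L.closed ((perm L.word)⁻¹ j) ((perm_inv_lt_iff _ _ L.lt j).2 hj)
  rw [← Equiv.Perm.mul_apply, mul_inv_cancel, Equiv.Perm.one_apply] at h
  exact h.symm

/-- `ColSet` for two choices of base points. -/
theorem card_change (L : Link k) (a b : Fin k → G) (hab : ∀ c, Commute (b c) (a c))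
    (B B' : Fin k → ℕ) (hB : ∀ c, B c < L.n) (hBc : ∀ c, L.comp (B c) = c)
    (hB' : ∀ c, B' c < L.n) (hBc' : ∀ c, L.comp (B' c) = c) :
    Nat.card (ColSet L.n L.word L.comp a (tau L.comp b B)) =
      Nat.card (ColSet L.n L.word L.comp a (tau L.comp b B')) := by
  classical
  set π := perm L.word with hπ
  have hex : ∀ c, ∃ m : ℕ, (π ^ m) (B c) = B' c := fun c =>
    L.conn _ (hB c) _ (hB' c) (by rw [hBc, hBc'])
  choose r hr using hex
  let N : ℕ → ℕ := fun j =>
    ∑ s ∈ Finset.range (r (L.comp j)), if (π ^ s) (B (L.comp j)) = j then 1 else 0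
  let K : ℕ → G := fun j => b (L.comp j) ^ N j
  have hpow : ∀ m c, (π ^ m) (B c) < L.n := by
    intro m c
    induction m with
    | zero => simpa using hB c
    | succ m ih => rw [pow_succ', Equiv.Perm.mul_apply]; exact (perm_lt_iff _ _ L.lt _).2 ih
  have hK1 : ∀ j, L.n ≤ j → K j = 1 := by
    intro j hj
    have : N j = 0 := by
      refine Finset.sum_eq_zero fun s _ => ?_
      rw [if_neg]
      intro h
      have := hpow s (L.comp j)
      omega
    simp only [K, this, pow_zero]
  have hKc : ∀ j, Commute (K j) (a (L.comp j)) := fun j => (hab _).pow_left _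
  have hrel : ∀ j < L.n, tau L.comp b B j * K (π⁻¹ j) = K j * tau L.comp b B' j := by
    intro j hj
    have hc := perm_inv_comp L j hj
    have hbp : ∀ p : Prop, [Decidable p] → (if p then b (L.comp j) else 1) =
        b (L.comp j) ^ (if p then 1 else 0) := by
      intro p _
      split_ifs <;> simp
    have e1 : N (π⁻¹ j) = ∑ s ∈ Finset.range (r (L.comp j)),
        if (π ^ (s + 1)) (B (L.comp j)) = j then 1 else 0 := by
      simp only [N]
      rw [hc]
      refine Finset.sum_congr rfl fun s _ => ?_
      have : (π ^ s) (B (L.comp j)) = π⁻¹ j ↔ (π ^ (s + 1)) (B (L.comp j)) = j := by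
        rw [Equiv.Perm.eq_inv_iff_eq, pow_succ', Equiv.Perm.mul_apply]
      simp only [this]
    simp only [tau, K]
    rw [hc, hbp, hbp, ← pow_add, ← pow_add]
    congr 1
    rw [e1]
    simp only [N]
    have e2 := Finset.sum_range_succ' (fun s => if (π ^ s) (B (L.comp j)) = j then 1 else 0)
      (r (L.comp j))
    have e3 := Finset.sum_range_succ (fun s => if (π ^ s) (B (L.comp j)) = j then 1 else 0)
      (r (L.comp j))
    rw [e3, hr] at e2
    simp only [pow_zero, Equiv.Perm.one_apply] at e2
    have e4 : (if j = B (L.comp j) then 1 else 0) = if B (L.comp j) = j then 1 else 0 := by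
      simp only [eq_comm]
    have e5 : (if j = B' (L.comp j) then 1 else 0) = if B' (L.comp j) = j then 1 else 0 := by
      simp only [eq_comm]
    rw [e4, e5, e2, add_comm]
  have hiff : ∀ u : ℕ → G, u ∈ ColSet L.n L.word L.comp a (tau L.comp b B) ↔
      (fun j => u j * K j) ∈ ColSet L.n L.word L.comp a (tau L.comp b B') := by
    intro u
    have hact : ∀ j, (act a L.word (fun i => (L.comp i, u i * K i)) j).2 =
        (act a L.word (fun i => (L.comp i, u i)) j).2 * K (π⁻¹ j) := by
      intro j
      have := act_mul a L.word (fun i => (L.comp i, u i)) K hKc j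
      simp only at this
      rw [this]
    unfold ColSet
    simp only [Set.mem_ofPred_eq]
    refine and_congr ?_ ?_
    · refine forall_congr' fun j => forall_congr' fun hj => ?_
      rw [hK1 j hj, mul_one]
    · refine forall_congr' fun j => forall_congr' fun hj => ?_
      rw [hact j, mul_assoc, ← hrel j hj, ← mul_assoc]
      constructor
      · intro h; rw [h]
      · intro h; exact mul_right_cancel h
  refine Nat.card_congr ⟨fun u => ⟨fun j => u.1 j * K j, (hiff u.1).1 u.2⟩,
    fun u => ⟨fun j => u.1 j * (K j)⁻¹, (hiff _).2 ?_⟩, ?_, ?_⟩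
  · simpa using u.2
  · rintro ⟨u, hu⟩
    refine Subtype.ext (funext fun j => ?_)
    simp
  · rintro ⟨u, hu⟩
    refine Subtype.ext (funext fun j => ?_)
    simp

/-! ### Conjugation -/

theorem colourings_conj (L L' : Link k) (hn : L'.n = L.n) (l : Letter) (w : List Letter)
    (hw : L.word = l :: w) (hw' : L'.word = w ++ [l])
    (hc : ∀ j < L.n, L'.comp j = L.comp (Equiv.swap l.1 (l.1 + 1) j))
    (a b : Fin k → G) (hab : ∀ c, Commute (b c) (a c)) :
    colourings L a b = colourings L' a b := by
  have hl : l.1 + 1 < L.n := L.lt l (by rw [hw]; exact List.mem_cons_self)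
  have hwn : ∀ l' ∈ w, l'.1 + 1 < L.n := fun l' h' => L.lt l' (by
    rw [hw]; exact List.mem_cons_of_mem _ h')
  have hlw' : ∀ l' ∈ w ++ [l], l'.1 + 1 < L.n := by
    intro l' h'
    rw [← hw'] at h'
    rw [← hn]
    exact L'.lt l' h'
  set σ := Equiv.swap l.1 (l.1 + 1) with hσ
  have hσn : ∀ j, σ j < L.n ↔ j < L.n := fun j => swap_lt_iff _ _ _ hl
  have hσσ : ∀ j, σ (σ j) = j := fun j => Equiv.swap_apply_self _ _ _
  -- base points of `L'` that are the images of the base points of `L`
  rw [colourings_eq, colourings_eq, hn]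
  have h1 := card_change L' a b hab L'.base (fun c => σ (L.base c)) (base_lt L') (comp_base L')
    (fun c => by rw [hn]; exact (hσn _).2 (base_lt L c))
    (fun c => by rw [hc _ ((hσn _).2 (base_lt L c)), hσσ, comp_base])
  rw [hn] at h1
  rw [h1, hw, hw']
  -- the transported elements
  let Ψ : (ℕ → G) → (ℕ → G) := fun u j => (cross a l (fun i => (L.comp i, u i)) j).2
  let l' : Letter := (l.1, !l.2)
  let Ψ' : (ℕ → G) → (ℕ → G) := fun u j =>
    (cross a l' (fun i => (L.comp (σ i), u i)) j).2
  have hpair : ∀ u : ℕ → G, (fun j => (L.comp (σ j), Ψ u j)) =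
      cross a l (fun i => (L.comp i, u i)) := by
    intro u
    funext j
    refine Prod.ext ?_ rfl
    rw [cross_fst]
  have hpair' : ∀ u : ℕ → G, (fun j => (L.comp j, Ψ' u j)) =
      cross a l' (fun i => (L.comp (σ i), u i)) := by
    intro u
    funext j
    refine Prod.ext ?_ rfl
    rw [cross_fst]
    show L.comp j = L.comp (σ (σ j))
    rw [hσσ]
  have hΨ'Ψ : ∀ u, Ψ' (Ψ u) = u := by
    intro u
    funext j
    have e : Ψ' (Ψ u) j = (cross a l' (fun j => (L.comp (σ j), Ψ u j)) j).2 := rfl
    rw [e, hpair]
    have := cross_cancel a l.1 l.2 (fun i => (L.comp i, u i))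
    rw [show cross a l' (cross a l fun i => (L.comp i, u i)) = fun i => (L.comp i, u i) from this]
  have hΨΨ' : ∀ u, Ψ (Ψ' u) = u := by
    intro u
    funext j
    have e : Ψ (Ψ' u) j = (cross a l (fun j => (L.comp j, Ψ' u j)) j).2 := rfl
    rw [e, hpair']
    have := cross_cancel a l'.1 l'.2 (fun i => (L.comp (σ i), u i))
    have hll : (l'.1, !l'.2) = l := by
      obtain ⟨i, ε⟩ := l
      simp [l']
    rw [hll] at this
    rw [show cross a l (cross a l' fun i => (L.comp (σ i), u i)) =
      fun i => (L.comp (σ i), u i) from this]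
  set t := tau L.comp b L.base with ht
  have htc : ∀ j, Commute (t j) (a (L.comp j)) := by
    intro j
    simp only [ht, tau]
    split_ifs
    · exact hab _
    · exact Commute.one_left _
  have htau : ∀ j < L.n, tau L'.comp b (fun c => σ (L.base c)) j = t (σ j) := by
    intro j hj
    simp only [ht, tau]
    rw [hc j hj]
    have : j = σ (L.base (L.comp (σ j))) ↔ σ j = L.base (L.comp (σ j)) := by
      constructor
      · intro h
        have h' := congrArg σ h
        rwa [hσσ] at h'
      · intro h
        rw [← h, hσσ]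
    simp only [this]
  have hiff : ∀ u : ℕ → G, u ∈ ColSet L.n (l :: w) L.comp a t ↔
      Ψ u ∈ ColSet L.n (w ++ [l]) L'.comp a (tau L'.comp b fun c => σ (L.base c)) := by
    intro u
    unfold ColSet
    simp only [Set.mem_ofPred_eq]
    have hsupp : (∀ j, L.n ≤ j → u j = 1) ↔ (∀ j, L.n ≤ j → Ψ u j = 1) := by
      refine forall_congr' fun j => forall_congr' fun hj => ?_
      have : Ψ u j = u j := by
        show (cross a l (fun i => (L.comp i, u i)) j).2 = u j
        rw [cross_of_ne a l _ j (by omega) (by omega)]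
      rw [this]
    refine and_congr hsupp ?_
    -- closing conditions, as pairs
    set s : ℕ → Fin k × G := fun i => (L.comp i, u i) with hs
    have hfst : ∀ j < L.n, (act a (l :: w) s j).1 = L.comp j := by
      intro j hj
      have e := act_fst a (l :: w) s ((perm (l :: w))⁻¹ j)
      rw [← Equiv.Perm.mul_apply, mul_inv_cancel, Equiv.Perm.one_apply] at e
      rw [e]
      have := perm_inv_comp L j hj
      rw [hw] at this
      exact this
    have hact' : ∀ j < L.n, act a (w ++ [l]) (fun i => (L'.comp i, Ψ u i)) j =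
        cross a l (act a (l :: w) s) j := by
      intro j hj
      rw [act_congr a (w ++ [l]) _ (fun i => (L.comp (σ i), Ψ u i)) L.n hlw'
        (fun i hi => by rw [hc i hi]) j hj, hpair, act_append, act_cons, act_nil]
      rfl
    have hcm : ∀ j, cross a l (fun i => (L.comp i, u i * t i)) j =
        (L.comp (σ j), Ψ u j * t (σ j)) := by
      intro j
      have e : cross a l (fun i => (L.comp i, u i * t i)) j = _ := cross_mul a l s t htc j
      rw [e]
      refine Prod.ext ?_ rfl
      show (cross a l s j).1 = L.comp (σ j)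
      rw [cross_fst]
    constructor
    · intro h j hj
      rw [hact' j hj, htau j hj]
      have e : cross a l (act a (l :: w) s) j = cross a l (fun i => (L.comp i, u i * t i)) j := by
        refine cross_congr a l _ _ L.n hl (fun i hi => ?_) j hj
        exact Prod.ext (hfst i hi) (h i hi)
      rw [e, hcm]
    · intro h j hj
      have e1 : ∀ i < L.n, cross a l (act a (l :: w) s) i =
          cross a l (fun i => (L.comp i, u i * t i)) i := by
        intro i hi
        rw [hcm]
        refine Prod.ext ?_ ?_
        · rw [cross_fst, hfst _ ((hσn i).2 hi)]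
        · have := h i hi
          rw [hact' i hi, htau i hi] at this
          exact this
      have e2 : cross a l' (cross a l (act a (l :: w) s)) j =
          cross a l' (cross a l (fun i => (L.comp i, u i * t i))) j :=
        cross_congr a l' _ _ L.n hl e1 j hj
      have e3 := cross_cancel a l.1 l.2 (act a (l :: w) s)
      have e4 := cross_cancel a l.1 l.2 (fun i => (L.comp i, u i * t i))
      rw [show cross a l' (cross a l (act a (l :: w) s)) = act a (l :: w) s from e3,
        show cross a l' (cross a l (fun i => (L.comp i, u i * t i))) =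
          (fun i => (L.comp i, u i * t i)) from e4] at e2
      rw [e2]
  refine Nat.card_congr ⟨fun u => ⟨Ψ u.1, (hiff u.1).1 u.2⟩,
    fun u => ⟨Ψ' u.1, (hiff _).2 (by rw [hΨΨ']; exact u.2)⟩, ?_, ?_⟩
  · rintro ⟨u, hu⟩
    exact Subtype.ext (hΨ'Ψ u)
  · rintro ⟨u, hu⟩
    exact Subtype.ext (hΨΨ' u)

end H23.FT
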