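import Pool.Agent.H23.FT.Basic

namespace H23.FT

variable {k : ℕ} {G : Type*} [Group G]

/-! ### The quandle -/

theorem op_self (a : Fin k → G) (s : Fin k × G) : op a s s = s := by
  obtain ⟨c, u⟩ := s
  simp [op]

theorem op_opInv (a : Fin k → G) (s t : Fin k × G) : op a s (opInv a s t) = t := by
  obtain ⟨c, u⟩ := s
  obtain ⟨d, v⟩ := t
  by_cases h : c = d
  · subst h
    simp only [op, opInv, if_true, Prod.mk.injEq, true_and]
    group
  · simp only [op, opInv, if_neg h, Prod.mk.injEq, true_and]
    group

theorem opInv_op (a : Fin k → G) (s t : Fin k × G) : opInv a s (op a s t) = t := by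
  obtain ⟨c, u⟩ := s
  obtain ⟨d, v⟩ := t
  by_cases h : c = d
  · subst h
    simp only [op, opInv, if_true, Prod.mk.injEq, true_and]
    group
  · simp only [op, opInv, if_neg h, Prod.mk.injEq, true_and]
    group

theorem opInv_self (a : Fin k → G) (s : Fin k × G) : opInv a s s = s := by
  have h := opInv_op a s s
  rwa [op_self] at h

theorem op_op (a : Fin k → G) (r s t : Fin k × G) :
    op a r (op a s t) = op a (op a r s) (op a r t) := by
  obtain ⟨c, u⟩ := r
  obtain ⟨d, v⟩ := s
  obtain ⟨e, x⟩ := t
  by_cases h1 : c = d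
  · subst h1
    by_cases h2 : c = e
    · subst h2
      simp only [op, if_true, Prod.mk.injEq, true_and]
      group
    · simp only [op, if_true, if_neg h2, Prod.mk.injEq, true_and]
      group
  · by_cases h2 : c = e
    · subst h2
      simp only [op, if_true, if_neg h1, if_neg (Ne.symm h1), Prod.mk.injEq, true_and]
      group
    · by_cases h3 : d = e
      · subst h3
        simp only [op, if_true, if_neg h1, Prod.mk.injEq, true_and]
        group
      · simp only [op, if_neg h1, if_neg h2, if_neg h3, Prod.mk.injEq, true_and]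
        group

@[simp] theorem op_fst (a : Fin k → G) (s t : Fin k × G) : (op a s t).1 = t.1 := rfl

@[simp] theorem opInv_fst (a : Fin k → G) (s t : Fin k × G) : (opInv a s t).1 = t.1 := rfl

/-! ### Crossings -/

theorem cross_left_true (a : Fin k → G) (i : ℕ) (s : ℕ → Fin k × G) :
    cross a (i, true) s i = op a (s i) (s (i + 1)) := by simp [cross]

theorem cross_right_true (a : Fin k → G) (i : ℕ) (s : ℕ → Fin k × G) :
    cross a (i, true) s (i + 1) = s i := by simp [cross]

theorem cross_left_false (a : Fin k → G) (i : ℕ) (s : ℕ → Fin k × G) :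
    cross a (i, false) s i = s (i + 1) := by simp [cross]

theorem cross_right_false (a : Fin k → G) (i : ℕ) (s : ℕ → Fin k × G) :
    cross a (i, false) s (i + 1) = opInv a (s (i + 1)) (s i) := by simp [cross]

theorem cross_of_ne (a : Fin k → G) (l : Letter) (s : ℕ → Fin k × G) (j : ℕ) (h1 : j ≠ l.1)
    (h2 : j ≠ l.1 + 1) : cross a l s j = s j := by simp [cross, h1, h2]

theorem cross_fst (a : Fin k → G) (l : Letter) (s : ℕ → Fin k × G) (j : ℕ) :
    (cross a l s j).1 = (s (Equiv.swap l.1 (l.1 + 1) j)).1 := by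
  obtain ⟨i, ε⟩ := l
  by_cases h1 : j = i
  · subst h1
    rw [Equiv.swap_apply_left]
    cases ε
    · rw [cross_left_false]
    · rw [cross_left_true, op_fst]
  · by_cases h2 : j = i + 1
    · subst h2
      rw [Equiv.swap_apply_right]
      cases ε
      · rw [cross_right_false, opInv_fst]
      · rw [cross_right_true]
    · rw [cross_of_ne a _ s j h1 h2, Equiv.swap_apply_of_ne_of_ne h1 h2]

theorem act_nil (a : Fin k → G) (s : ℕ → Fin k × G) : act a [] s = s := rfl

theorem act_cons (a : Fin k → G) (l : Letter) (w : List Letter) (s : ℕ → Fin k × G) :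
    act a (l :: w) s = act a w (cross a l s) := rfl

theorem act_append (a : Fin k → G) (w w' : List Letter) (s : ℕ → Fin k × G) :
    act a (w ++ w') s = act a w' (act a w s) := by
  induction w generalizing s with
  | nil => rfl
  | cons l w ih => rw [List.cons_append, act_cons, act_cons, ih]

/-- Labels are permuted. -/
theorem act_fst (a : Fin k → G) (w : List Letter) (s : ℕ → Fin k × G) (j : ℕ) :
    (act a w s (perm w j)).1 = (s j).1 := by
  induction w generalizing s j with
  | nil => rfl
  | cons l w ih =>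
    rw [act_cons, perm_cons, Equiv.Perm.mul_apply, ih, cross_fst, Equiv.swap_apply_self]

/-! ### Homomorphisms -/

theorem map_op {H : Type*} [Group H] (f : G →* H) (a : Fin k → G) (s t : Fin k × G) :
    ((op a s t).1, f (op a s t).2) = op (fun c => f (a c)) (s.1, f s.2) (t.1, f t.2) := by
  by_cases h : s.1 = t.1 <;> simp [op, h]

theorem map_opInv {H : Type*} [Group H] (f : G →* H) (a : Fin k → G) (s t : Fin k × G) :
    ((opInv a s t).1, f (opInv a s t).2) = opInv (fun c => f (a c)) (s.1, f s.2) (t.1, f t.2) := by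
  by_cases h : s.1 = t.1 <;> simp [opInv, h]

theorem map_cross {H : Type*} [Group H] (f : G →* H) (a : Fin k → G) (l : Letter)
    (s : ℕ → Fin k × G) (j : ℕ) :
    ((cross a l s j).1, f (cross a l s j).2) =
      cross (fun c => f (a c)) l (fun j => ((s j).1, f (s j).2)) j := by
  obtain ⟨i, ε⟩ := l
  by_cases h1 : j = i
  · subst h1
    cases ε
    · rw [cross_left_false, cross_left_false]
    · rw [cross_left_true, cross_left_true, map_op]
  · by_cases h2 : j = i + 1
    · subst h2
      cases ε
      · rw [cross_right_false, cross_right_false, map_opInv]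
      · rw [cross_right_true, cross_right_true]
    · rw [cross_of_ne a _ s j h1 h2, cross_of_ne _ _ _ j h1 h2]

theorem map_act {H : Type*} [Group H] (f : G →* H) (a : Fin k → G) (w : List Letter)
    (s : ℕ → Fin k × G) (j : ℕ) :
    ((act a w s j).1, f (act a w s j).2) =
      act (fun c => f (a c)) w (fun j => ((s j).1, f (s j).2)) j := by
  induction w generalizing s with
  | nil => rfl
  | cons l w ih =>
    rw [act_cons, act_cons, ih]
    congr 1
    funext i
    exact map_cross f a l s i

/-! ### Right multiplication -/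

theorem op_mul (a : Fin k → G) (s t : Fin k × G) (x y : G) (hx : Commute x (a s.1))
    (hy : Commute y (a t.1)) :
    op a (s.1, s.2 * x) (t.1, t.2 * y) = ((op a s t).1, (op a s t).2 * y) := by
  have h1 : x * a s.1 * x⁻¹ = a s.1 := by rw [hx.eq, mul_inv_cancel_right]
  by_cases h : s.1 = t.1
  · have hy' : y * (a s.1)⁻¹ = (a s.1)⁻¹ * y := by rw [h]; exact hy.inv_right.eq
    simp only [op, if_pos h, Prod.mk.injEq, true_and]
    calc s.2 * x * a s.1 * (s.2 * x)⁻¹ * (t.2 * y) * (a s.1)⁻¹
        = s.2 * (x * a s.1 * x⁻¹) * s.2⁻¹ * t.2 * (y * (a s.1)⁻¹) := by group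
      _ = s.2 * a s.1 * s.2⁻¹ * t.2 * (a s.1)⁻¹ * y := by rw [h1, hy']; group
  · simp only [op, if_neg h, Prod.mk.injEq, true_and, mul_one]
    calc s.2 * x * a s.1 * (s.2 * x)⁻¹ * (t.2 * y)
        = s.2 * (x * a s.1 * x⁻¹) * s.2⁻¹ * t.2 * y := by group
      _ = s.2 * a s.1 * s.2⁻¹ * t.2 * y := by rw [h1]

theorem opInv_mul (a : Fin k → G) (s t : Fin k × G) (x y : G) (hx : Commute x (a s.1))
    (hy : Commute y (a t.1)) :
    opInv a (s.1, s.2 * x) (t.1, t.2 * y) = ((opInv a s t).1, (opInv a s t).2 * y) := by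
  have h1 : x * (a s.1)⁻¹ * x⁻¹ = (a s.1)⁻¹ := by rw [hx.inv_right.eq, mul_inv_cancel_right]
  by_cases h : s.1 = t.1
  · have hy' : y * (a s.1) = (a s.1) * y := by rw [h]; exact hy.eq
    simp only [opInv, if_pos h, Prod.mk.injEq, true_and]
    calc s.2 * x * (a s.1)⁻¹ * (s.2 * x)⁻¹ * (t.2 * y) * (a s.1)
        = s.2 * (x * (a s.1)⁻¹ * x⁻¹) * s.2⁻¹ * t.2 * (y * (a s.1)) := by group
      _ = s.2 * (a s.1)⁻¹ * s.2⁻¹ * t.2 * (a s.1) * y := by rw [h1, hy']; group
  · simp only [opInv, if_neg h, Prod.mk.injEq, true_and, mul_one]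
    calc s.2 * x * (a s.1)⁻¹ * (s.2 * x)⁻¹ * (t.2 * y)
        = s.2 * (x * (a s.1)⁻¹ * x⁻¹) * s.2⁻¹ * t.2 * y := by group
      _ = s.2 * (a s.1)⁻¹ * s.2⁻¹ * t.2 * y := by rw [h1]

theorem cross_mul (a : Fin k → G) (l : Letter) (s : ℕ → Fin k × G) (x : ℕ → G)
    (hx : ∀ j, Commute (x j) (a (s j).1)) (j : ℕ) :
    cross a l (fun j => ((s j).1, (s j).2 * x j)) j =
      ((cross a l s j).1, (cross a l s j).2 * x (Equiv.swap l.1 (l.1 + 1) j)) := by
  obtain ⟨i, ε⟩ := l
  by_cases h1 : j = i
  · subst h1
    rw [Equiv.swap_apply_left]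
    cases ε
    · rw [cross_left_false, cross_left_false]
    · rw [cross_left_true, cross_left_true, op_mul a _ _ _ _ (hx _) (hx _)]
  · by_cases h2 : j = i + 1
    · subst h2
      rw [Equiv.swap_apply_right]
      cases ε
      · rw [cross_right_false, cross_right_false, opInv_mul a _ _ _ _ (hx _) (hx _)]
      · rw [cross_right_true, cross_right_true]
    · rw [cross_of_ne a _ _ j h1 h2, cross_of_ne _ _ _ j h1 h2,
        Equiv.swap_apply_of_ne_of_ne h1 h2]

theorem act_mul (a : Fin k → G) (w : List Letter) (s : ℕ → Fin k × G) (x : ℕ → G)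
    (hx : ∀ j, Commute (x j) (a (s j).1)) (j : ℕ) :
    act a w (fun j => ((s j).1, (s j).2 * x j)) j =
      ((act a w s j).1, (act a w s j).2 * x ((perm w)⁻¹ j)) := by
  induction w generalizing s x with
  | nil => simp [act_nil, perm_nil]
  | cons l w ih =>
    rw [act_cons, act_cons]
    have h1 : cross a l (fun j => ((s j).1, (s j).2 * x j)) =
        fun j => ((cross a l s j).1,
          (cross a l s j).2 * x (Equiv.swap l.1 (l.1 + 1) j)) := by
      funext j
      exact cross_mul a l s x hx j
    rw [h1, ih (cross a l s) (fun j => x (Equiv.swap l.1 (l.1 + 1) j)) ?_]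
    · rw [perm_cons, mul_inv_rev, Equiv.Perm.mul_apply, Equiv.swap_inv]
    · intro j
      rw [cross_fst]
      exact hx _

/-! ### Locality -/

theorem cross_congr (a : Fin k → G) (l : Letter) (s s' : ℕ → Fin k × G) (n : ℕ)
    (hl : l.1 + 1 < n) (h : ∀ j < n, s j = s' j) : ∀ j < n, cross a l s j = cross a l s' j := by
  intro j hj
  unfold cross
  rw [h l.1 (by omega), h (l.1 + 1) hl, h j hj]

theorem act_congr (a : Fin k → G) (w : List Letter) (s s' : ℕ → Fin k × G) (n : ℕ)
    (hw : ∀ l ∈ w, l.1 + 1 < n) (h : ∀ j < n, s j = s' j) :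
    ∀ j < n, act a w s j = act a w s' j := by
  induction w generalizing s s' with
  | nil => exact h
  | cons l w ih =>
    rw [act_cons, act_cons]
    exact ih _ _ (fun l' hl' => hw l' (List.mem_cons_of_mem _ hl'))
      (cross_congr a l s s' n (hw l (List.mem_cons_self)) h)

theorem act_of_ge (a : Fin k → G) (w : List Letter) (s : ℕ → Fin k × G) (n : ℕ)
    (hw : ∀ l ∈ w, l.1 + 1 < n) (j : ℕ) (hj : n ≤ j) : act a w s j = s j := by
  induction w generalizing s with
  | nil => rfl
  | cons l w ih =>
    have hl : l.1 + 1 < n := hw l (List.mem_cons_self)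
    rw [act_cons, ih _ (fun l' hl' => hw l' (List.mem_cons_of_mem _ hl')),
      cross_of_ne a l s j (by omega) (by omega)]

theorem swap_lt_iff (i n j : ℕ) (h : i + 1 < n) : Equiv.swap i (i + 1) j < n ↔ j < n := by
  by_cases h1 : j = i
  · subst h1; rw [Equiv.swap_apply_left]; omega
  · by_cases h2 : j = i + 1
    · subst h2; rw [Equiv.swap_apply_right]; omega
    · rw [Equiv.swap_apply_of_ne_of_ne h1 h2]

theorem perm_lt_iff (w : List Letter) (n : ℕ) (hw : ∀ l ∈ w, l.1 + 1 < n) (j : ℕ) :
    perm w j < n ↔ j < n := by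
  induction w generalizing j with
  | nil => rfl
  | cons l w ih =>
    rw [perm_cons, Equiv.Perm.mul_apply,
      ih (fun l' hl' => hw l' (List.mem_cons_of_mem _ hl')),
      swap_lt_iff _ _ _ (hw l (List.mem_cons_self))]

theorem perm_inv_lt_iff (w : List Letter) (n : ℕ) (hw : ∀ l ∈ w, l.1 + 1 < n) (j : ℕ) :
    (perm w)⁻¹ j < n ↔ j < n := by
  rw [← perm_lt_iff w n hw ((perm w)⁻¹ j)]
  simp

/-! ### Shifts -/

theorem shift_cons (n : ℕ) (l : Letter) (w : List Letter) :
    shift n (l :: w) = (n + l.1, l.2) :: shift n w := rfl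

theorem cross_shift (a : Fin k → G) (n : ℕ) (l : Letter) (s : ℕ → Fin k × G) (j : ℕ) :
    cross a (n + l.1, l.2) s (n + j) = cross a l (fun j => s (n + j)) j := by
  obtain ⟨i, ε⟩ := l
  by_cases h1 : j = i
  · subst h1
    cases ε
    · rw [cross_left_false, cross_left_false, add_assoc]
    · rw [cross_left_true, cross_left_true, add_assoc]
  · by_cases h2 : j = i + 1
    · subst h2
      cases ε
      · have := cross_right_false a (n + i) s
        rw [add_assoc] at this
        simp only at *
        rw [this, cross_right_false]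
      · have := cross_right_true a (n + i) s
        rw [add_assoc] at this
        simp only at *
        rw [this, cross_right_true]
    · rw [cross_of_ne a _ _ j h1 h2, cross_of_ne a _ _ (n + j)]
      · intro h; exact h1 (by simpa using h)
      · intro h; exact h2 (by simp only at h; omega)

theorem act_shift (a : Fin k → G) (n : ℕ) (w : List Letter) (s : ℕ → Fin k × G) (j : ℕ) :
    act a (shift n w) s (n + j) = act a w (fun j => s (n + j)) j := by
  induction w generalizing s with
  | nil => rfl
  | cons l w ih =>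
    rw [shift_cons, act_cons, act_cons, ih]
    congr 1
    funext i
    exact cross_shift a n l s i

theorem act_shift_of_lt (a : Fin k → G) (n : ℕ) (w : List Letter) (s : ℕ → Fin k × G) (j : ℕ)
    (hj : j < n) : act a (shift n w) s j = s j := by
  induction w generalizing s with
  | nil => rfl
  | cons l w ih =>
    rw [shift_cons, act_cons, ih, cross_of_ne a _ _ j (by simp only; omega) (by simp only; omega)]

/-- A word acts trivially on constant strands. -/
theorem act_const (a : Fin k → G) (w : List Letter) (n : ℕ) (hw : ∀ l ∈ w, l.1 + 1 < n)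
    (s : ℕ → Fin k × G) (x : Fin k × G) (h : ∀ j < n, s j = x) : ∀ j < n, act a w s j = x := by
  induction w generalizing s with
  | nil => exact h
  | cons l w ih =>
    rw [act_cons]
    refine ih (fun l' hl' => hw l' (List.mem_cons_of_mem _ hl')) _ ?_
    have hl := hw l (List.mem_cons_self)
    intro j hj
    unfold cross
    rw [h l.1 (by omega), h (l.1 + 1) hl, h j hj]
    split_ifs <;> first | rfl | exact op_self a x | exact opInv_self a x

end H23.FT
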